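import Mathlib

/-!
Module Fgc (only Mathlib): counting exponents with nearly vanishing sums.

Paper proof (complete). Write `T j = 2 ^ (n j) * τ j`. Prove by induction on `r` the existence of a
constant `C` (depending on `r`) such that for all data the set `F` of the theorem has at most
`C * M ^ (r / 2)` elements, and the subset `G` of the `n ∈ F` with `T j ≤ 2 * |R|` for all `j` has at most
`C * M ^ ((r - 1) / 2)` elements (natural number division and subtraction). `r = 0`: there is only one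
function. `r ≥ 1`, `G`: let `j1` be an index with `T j1` maximal (`r` choices). From the condition for
`j = j1`, `|R| ≤ (r + 1) T j1`, so `T j1 ∈ [|R| / (r+1), 2 |R|]`; hence `R ≠ 0` and `n j1` has at most
`log2 (2 (r+1)) + 1 ≤ r + 4` possible values (two values `m < m'` satisfy `2^(m'-m) ≤ 2 (r+1)`, so
`m' - m ≤ 2 r`, at most `2 r + 1` values). Fix `n j1` and let `R' = R + σ j1 * T j1`, a fixed number; the
restriction of `n` to the other `r - 1` indices (`Fin.succAbove j1`) is in the set `F` for `R'`, at most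
`C' * M ^ ((r-1)/2)` elements.
`F`: let `j1` be as before. The `n` with `T j1 ≤ 2 |R|` are in `G`, and `(r-1)/2 ≤ r/2`. If
`2 |R| < T j1`: there are at most `2 M + 1 ≤ 3 M` values of `n j1`; fix `n j1`; with `R'` as before,
`|R'| ≥ T j1 - |R| > T j1 / 2`, so all other `T j ≤ T j1 ≤ 2 |R'|`. If `r = 1` the condition for `j1` says
`|R'| ≤ T j1 / 2`, a contradiction (no such `n`). If `r ≥ 2`, the restriction of `n` is in the set `G` for
`R'`, at most `C' * M ^ ((r-2)/2)` elements, and `M * M ^ ((r-2)/2) = M ^ (r/2)`.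
(`σ j` is `1` or `-1`.)
-/

namespace Pool.Agent.H74.GC

open Finset

open Classical in
private noncomputable def Fgc_F (r M : ℕ) (τ σ : Fin r → ℝ) (R : ℝ) : Finset (Fin r → ℤ) :=
  (Finset.Icc (fun _ => -(M : ℤ)) (fun _ => (M : ℤ))).filter
    (fun n => ∀ j, |R + ∑ i, σ i * ((2 : ℝ) ^ (n i) * τ i)| ≤ (1 / 2) * ((2 : ℝ) ^ (n j) * τ j))

open Classical in
private noncomputable def Fgc_G (r M : ℕ) (τ σ : Fin r → ℝ) (R : ℝ) : Finset (Fin r → ℤ) :=
  (Fgc_F r M τ σ R).filter (fun n => ∀ j, (2 : ℝ) ^ (n j) * τ j ≤ 2 * |R|)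

private theorem Fgc_memF {r M : ℕ} {τ σ : Fin r → ℝ} {R : ℝ} {n : Fin r → ℤ} :
    n ∈ Fgc_F r M τ σ R ↔ (∀ j, |n j| ≤ M) ∧
      ∀ j, |R + ∑ i, σ i * ((2 : ℝ) ^ (n i) * τ i)| ≤ (1 / 2) * ((2 : ℝ) ^ (n j) * τ j) := by
  unfold Fgc_F
  rw [mem_filter, mem_Icc, Pi.le_def, Pi.le_def]
  constructor
  · rintro ⟨⟨h1, h2⟩, h3⟩
    exact ⟨fun j => abs_le.2 ⟨h1 j, h2 j⟩, h3⟩
  · rintro ⟨h1, h3⟩
    exact ⟨⟨fun j => (abs_le.1 (h1 j)).1, fun j => (abs_le.1 (h1 j)).2⟩, h3⟩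

private theorem Fgc_memG {r M : ℕ} {τ σ : Fin r → ℝ} {R : ℝ} {n : Fin r → ℤ} :
    n ∈ Fgc_G r M τ σ R ↔ n ∈ Fgc_F r M τ σ R ∧ ∀ j, (2 : ℝ) ^ (n j) * τ j ≤ 2 * |R| := by
  unfold Fgc_G
  rw [mem_filter]

/-- restriction to the indices different from `j1` -/
private theorem Fgc_restr {r M : ℕ} {τ σ : Fin (r + 1) → ℝ} {R : ℝ} {n : Fin (r + 1) → ℤ}
    (h : n ∈ Fgc_F (r + 1) M τ σ R) (j1 : Fin (r + 1)) :
    (fun i => n (j1.succAbove i)) ∈ Fgc_F r M (fun i => τ (j1.succAbove i))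
      (fun i => σ (j1.succAbove i)) (R + σ j1 * ((2 : ℝ) ^ (n j1) * τ j1)) := by
  rw [Fgc_memF] at h ⊢
  refine ⟨fun j => h.1 _, fun j => ?_⟩
  have h2 := h.2 (j1.succAbove j)
  rw [Fin.sum_univ_succAbove _ j1] at h2
  rw [add_assoc]
  exact h2

private theorem Fgc_inj {r : ℕ} (A : Finset (Fin (r + 1) → ℤ)) (B : Finset (Fin r → ℤ))
    (j1 : Fin (r + 1)) (v : ℤ) (hv : ∀ n ∈ A, n j1 = v)
    (h : ∀ n ∈ A, (fun i => n (j1.succAbove i)) ∈ B) : A.card ≤ B.card := by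
  refine card_le_card_of_injOn (fun n i => n (j1.succAbove i)) (fun n hn => h n hn) ?_
  intro n hn n' hn' e
  funext j
  rcases Fin.eq_self_or_eq_succAbove j1 j with rfl | ⟨i, rfl⟩
  · rw [hv n hn, hv n' hn']
  · exact congrFun e i

private theorem Fgc_count {r : ℕ} (A : Finset (Fin (r + 1) → ℤ)) (j1 : Fin (r + 1)) (b k : ℕ)
    (h1 : ∀ v, (A.filter (fun n => n j1 = v)).card ≤ b)
    (h2 : (A.image (fun n => n j1)).card ≤ k) : A.card ≤ b * k :=
  (card_le_mul_card_image A b (fun v _ => h1 v)).trans (Nat.mul_le_mul_left _ h2)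

private theorem Fgc_spread (I : Finset ℤ) (d : ℕ) (h : ∀ x ∈ I, ∀ y ∈ I, x ≤ y → y - x ≤ d) :
    I.card ≤ d + 1 := by
  rcases I.eq_empty_or_nonempty with rfl | hI
  · simp
  · have hm := I.min'_mem hI
    have hsub : I ⊆ Finset.Icc (I.min' hI) (I.min' hI + d) := by
      intro y hy
      have h1 := I.min'_le y hy
      have h2 := h _ hm y hy h1
      rw [mem_Icc]
      exact ⟨h1, by linarith⟩
    refine (card_le_card hsub).trans ?_
    rw [Int.card_Icc]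
    omega

private theorem Fgc_two (r : ℕ) : r + 2 < 2 ^ (r + 2) := Nat.lt_two_pow_self

/-- the set where `j1` is the index of a maximal term -/
private theorem Fgc_max {r M : ℕ} {τ σ : Fin (r + 1) → ℝ} {R : ℝ} (hτ : ∀ j, 0 < τ j)
    (hσ : ∀ j, σ j = 1 ∨ σ j = -1) {n : Fin (r + 1) → ℤ} (h : n ∈ Fgc_F (r + 1) M τ σ R)
    (j1 : Fin (r + 1)) (hm : ∀ j, (2 : ℝ) ^ (n j) * τ j ≤ (2 : ℝ) ^ (n j1) * τ j1) :
    |R| ≤ ((r : ℝ) + 2) * ((2 : ℝ) ^ (n j1) * τ j1) := by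
  have h1 := (Fgc_memF.1 h).2 j1
  have h2 : |∑ i, σ i * ((2 : ℝ) ^ (n i) * τ i)| ≤
      ((r : ℝ) + 1) * ((2 : ℝ) ^ (n j1) * τ j1) := by
    refine (abs_sum_le_sum_abs _ _).trans ?_
    have h3 : ∀ i ∈ (univ : Finset (Fin (r + 1))),
        |σ i * ((2 : ℝ) ^ (n i) * τ i)| ≤ (2 : ℝ) ^ (n j1) * τ j1 := by
      intro i _
      have h4 : 0 < (2 : ℝ) ^ (n i) * τ i := mul_pos (zpow_pos (by norm_num) _) (hτ i)
      have h5 : |σ i| = 1 := by
        rcases hσ i with h | h <;> rw [h] <;> simp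
      rw [abs_mul, h5, one_mul, abs_of_pos h4]
      exact hm i
    refine (sum_le_sum h3).trans ?_
    rw [sum_const, card_univ, Fintype.card_fin, nsmul_eq_mul]
    push_cast
    exact le_rfl
  have h6 : |R| ≤ |R + ∑ i, σ i * ((2 : ℝ) ^ (n i) * τ i)| +
      |∑ i, σ i * ((2 : ℝ) ^ (n i) * τ i)| := by
    have h7 := abs_sub (R + ∑ i, σ i * ((2 : ℝ) ^ (n i) * τ i))
      (∑ i, σ i * ((2 : ℝ) ^ (n i) * τ i))
    rwa [add_sub_cancel_right] at h7
  have h8 : 0 < (2 : ℝ) ^ (n j1) * τ j1 := mul_pos (zpow_pos (by norm_num) _) (hτ j1)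
  nlinarith

private theorem Fgc_stepG {r M C : ℕ}
    (ih : ∀ (τ σ : Fin r → ℝ) (R : ℝ), (∀ j, 0 < τ j) → (∀ j, σ j = 1 ∨ σ j = -1) →
      (Fgc_F r M τ σ R).card ≤ C * M ^ (r / 2))
    (τ σ : Fin (r + 1) → ℝ) (R : ℝ) (hτ : ∀ j, 0 < τ j) (hσ : ∀ j, σ j = 1 ∨ σ j = -1) :
    (Fgc_G (r + 1) M τ σ R).card ≤ ((r + 1) * (r + 4)) * C * M ^ (r / 2) := by
  classical
  have hcov : Fgc_G (r + 1) M τ σ R ⊆ (univ : Finset (Fin (r + 1))).biUnion
      (fun j1 => (Fgc_G (r + 1) M τ σ R).filter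
        (fun n => ∀ j, (2 : ℝ) ^ (n j) * τ j ≤ (2 : ℝ) ^ (n j1) * τ j1)) := by
    intro n hn
    obtain ⟨j1, -, hj1⟩ := exists_max_image (univ : Finset (Fin (r + 1)))
      (fun j => (2 : ℝ) ^ (n j) * τ j) univ_nonempty
    rw [mem_biUnion]
    exact ⟨j1, mem_univ _, mem_filter.2 ⟨hn, fun j => hj1 j (mem_univ _)⟩⟩
  refine (card_le_card hcov).trans (card_biUnion_le.trans ?_)
  have hone : ∀ j1 ∈ (univ : Finset (Fin (r + 1))), ((Fgc_G (r + 1) M τ σ R).filter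
      (fun n => ∀ j, (2 : ℝ) ^ (n j) * τ j ≤ (2 : ℝ) ^ (n j1) * τ j1)).card ≤
      C * M ^ (r / 2) * (r + 4) := by
    intro j1 _
    refine Fgc_count _ j1 _ _ ?_ ?_
    · intro v
      refine (Fgc_inj _ (Fgc_F r M (fun i => τ (j1.succAbove i))
        (fun i => σ (j1.succAbove i)) (R + σ j1 * ((2 : ℝ) ^ v * τ j1))) j1 v ?_ ?_).trans
        (ih _ _ _ (fun j => hτ _) (fun j => hσ _))
      · intro n hn
        exact (mem_filter.1 hn).2
      · intro n hn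
        have h1 := (mem_filter.1 hn).2
        have h2 := (mem_filter.1 (mem_filter.1 hn).1).1
        have h3 := Fgc_restr (Fgc_memG.1 h2).1 j1
        rw [h1] at h3
        exact h3
    · refine Fgc_spread _ (r + 3) ?_
      intro x hx y hy hxy
      obtain ⟨n, hn, rfl⟩ := mem_image.1 hx
      obtain ⟨n', hn', rfl⟩ := mem_image.1 hy
      obtain ⟨hn1, hn2⟩ := mem_filter.1 hn
      obtain ⟨hn1', hn2'⟩ := mem_filter.1 hn'
      have h1 := Fgc_max hτ hσ (Fgc_memG.1 hn1).1 j1 hn2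
      have h2 := (Fgc_memG.1 hn1').2 j1
      by_contra hcon
      push Not at hcon
      have h3 : (2 : ℝ) ^ (n' j1) = (2 : ℝ) ^ (n j1) * (2 : ℝ) ^ (n' j1 - n j1) := by
        rw [← zpow_add₀ (by norm_num)]
        congr 1
        ring
      have h4 : (2 : ℝ) ^ (r + 3) ≤ (2 : ℝ) ^ (n' j1 - n j1) := by
        rw [← zpow_natCast]
        refine zpow_le_zpow_right₀ (by norm_num) ?_
        push_cast at hcon ⊢
        exact hcon.le
      have h5 : 0 < (2 : ℝ) ^ (n j1) * τ j1 := mul_pos (zpow_pos (by norm_num) _) (hτ j1)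
      have h6 : ((r : ℝ) + 2) < (2 : ℝ) ^ (r + 2) := by
        exact_mod_cast Fgc_two r
      have h7 : (2 : ℝ) ^ (n' j1) * τ j1 =
          ((2 : ℝ) ^ (n j1) * τ j1) * (2 : ℝ) ^ (n' j1 - n j1) := by
        rw [h3]
        ring
      rw [h7] at h2
      have h8 : ((2 : ℝ) ^ (n j1) * τ j1) * (2 : ℝ) ^ (r + 3) ≤
          ((2 : ℝ) ^ (n j1) * τ j1) * (2 : ℝ) ^ (n' j1 - n j1) :=
        mul_le_mul_of_nonneg_left h4 h5.le
      have h9 : (2 : ℝ) ^ (r + 3) = 2 * (2 : ℝ) ^ (r + 2) := by ring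
      rw [h9] at h8
      nlinarith
  refine (sum_le_card_nsmul _ _ _ hone).trans ?_
  rw [card_univ, Fintype.card_fin, smul_eq_mul]
  exact le_of_eq (by ring)

private theorem Fgc_stepF {r M C : ℕ} (hM : 1 ≤ M)
    (ih : ∀ (τ σ : Fin r → ℝ) (R : ℝ), (∀ j, 0 < τ j) → (∀ j, σ j = 1 ∨ σ j = -1) →
      (Fgc_F r M τ σ R).card ≤ C * M ^ (r / 2))
    (ihG : ∀ (τ σ : Fin r → ℝ) (R : ℝ), (∀ j, 0 < τ j) → (∀ j, σ j = 1 ∨ σ j = -1) →
      (Fgc_G r M τ σ R).card ≤ C * M ^ ((r - 1) / 2))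
    (τ σ : Fin (r + 1) → ℝ) (R : ℝ) (hτ : ∀ j, 0 < τ j) (hσ : ∀ j, σ j = 1 ∨ σ j = -1) :
    (Fgc_F (r + 1) M τ σ R).card ≤
      ((r + 1) * (r + 4) * C + (r + 1) * (3 * C)) * M ^ ((r + 1) / 2) := by
  classical
  have hcov : Fgc_F (r + 1) M τ σ R ⊆ Fgc_G (r + 1) M τ σ R ∪
      (univ : Finset (Fin (r + 1))).biUnion
      (fun j1 => (Fgc_F (r + 1) M τ σ R).filter
        (fun n => (∀ j, (2 : ℝ) ^ (n j) * τ j ≤ (2 : ℝ) ^ (n j1) * τ j1) ∧
          2 * |R| < (2 : ℝ) ^ (n j1) * τ j1)) := by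
    intro n hn
    obtain ⟨j1, -, hj1⟩ := exists_max_image (univ : Finset (Fin (r + 1)))
      (fun j => (2 : ℝ) ^ (n j) * τ j) univ_nonempty
    rw [mem_union]
    by_cases hc : 2 * |R| < (2 : ℝ) ^ (n j1) * τ j1
    · right
      rw [mem_biUnion]
      exact ⟨j1, mem_univ _, mem_filter.2 ⟨hn, fun j => hj1 j (mem_univ _), hc⟩⟩
    · left
      push Not at hc
      exact Fgc_memG.2 ⟨hn, fun j => (hj1 j (mem_univ _)).trans hc⟩
  have hM' : M ^ (r / 2) ≤ M ^ ((r + 1) / 2) := Nat.pow_le_pow_right hM (by omega)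
  have hG := Fgc_stepG ih τ σ R hτ hσ
  have hone : ∀ j1 ∈ (univ : Finset (Fin (r + 1))), ((Fgc_F (r + 1) M τ σ R).filter
        (fun n => (∀ j, (2 : ℝ) ^ (n j) * τ j ≤ (2 : ℝ) ^ (n j1) * τ j1) ∧
          2 * |R| < (2 : ℝ) ^ (n j1) * τ j1)).card ≤ 3 * C * M ^ ((r + 1) / 2) := by
    intro j1 _
    have hR' : ∀ n ∈ ((Fgc_F (r + 1) M τ σ R).filter
        (fun n => (∀ j, (2 : ℝ) ^ (n j) * τ j ≤ (2 : ℝ) ^ (n j1) * τ j1) ∧
          2 * |R| < (2 : ℝ) ^ (n j1) * τ j1)),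
        (2 : ℝ) ^ (n j1) * τ j1 < 2 * |R + σ j1 * ((2 : ℝ) ^ (n j1) * τ j1)| := by
      intro n hn
      obtain ⟨-, -, h3⟩ := mem_filter.1 hn
      have h4 : 0 < (2 : ℝ) ^ (n j1) * τ j1 := mul_pos (zpow_pos (by norm_num) _) (hτ j1)
      have h5 : |σ j1 * ((2 : ℝ) ^ (n j1) * τ j1)| = (2 : ℝ) ^ (n j1) * τ j1 := by
        have h5 : |σ j1| = 1 := by
          rcases hσ j1 with h | h <;> rw [h] <;> simp
        rw [abs_mul, h5, one_mul, abs_of_pos h4]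
      have h6 := abs_sub (R + σ j1 * ((2 : ℝ) ^ (n j1) * τ j1)) R
      rw [add_sub_cancel_left, h5] at h6
      linarith
    rcases Nat.eq_zero_or_pos r with rfl | hr
    · have hempty : ((Fgc_F (0 + 1) M τ σ R).filter
          (fun n => (∀ j, (2 : ℝ) ^ (n j) * τ j ≤ (2 : ℝ) ^ (n j1) * τ j1) ∧
          2 * |R| < (2 : ℝ) ^ (n j1) * τ j1)) = ∅ := by
        rw [eq_empty_iff_forall_notMem]
        intro n hn
        have h1 := hR' n hn
        have h2 := (Fgc_memF.1 (mem_filter.1 hn).1).2 j1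
        rw [Fin.sum_univ_succAbove _ j1] at h2
        simp only [univ_eq_empty, sum_empty, add_zero] at h2
        linarith
      rw [hempty]
      simp
    · have hpow : M ^ ((r + 1) / 2) = M ^ ((r - 1) / 2) * M := by
        rw [← pow_succ]
        congr 1
        omega
      have h1 := Fgc_count ((Fgc_F (r + 1) M τ σ R).filter
        (fun n => (∀ j, (2 : ℝ) ^ (n j) * τ j ≤ (2 : ℝ) ^ (n j1) * τ j1) ∧
          2 * |R| < (2 : ℝ) ^ (n j1) * τ j1)) j1 (C * M ^ ((r - 1) / 2)) (3 * M) ?_ ?_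
      · refine h1.trans (le_of_eq ?_)
        rw [hpow]
        ring
      · intro v
        refine (Fgc_inj _ (Fgc_G r M (fun i => τ (j1.succAbove i))
          (fun i => σ (j1.succAbove i)) (R + σ j1 * ((2 : ℝ) ^ v * τ j1))) j1 v ?_ ?_).trans
          (ihG _ _ _ (fun j => hτ _) (fun j => hσ _))
        · intro n hn
          exact (mem_filter.1 hn).2
        · intro n hn
          have h1 := (mem_filter.1 hn).2
          have h2 := (mem_filter.1 hn).1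
          have h4 := hR' n h2
          obtain ⟨h5, h6, -⟩ := mem_filter.1 h2
          have h3 := Fgc_restr h5 j1
          rw [h1] at h3 h4 h6
          exact Fgc_memG.2 ⟨h3, fun j => (h6 _).trans h4.le⟩
      · have hsub : (((Fgc_F (r + 1) M τ σ R).filter
          (fun n => (∀ j, (2 : ℝ) ^ (n j) * τ j ≤ (2 : ℝ) ^ (n j1) * τ j1) ∧
          2 * |R| < (2 : ℝ) ^ (n j1) * τ j1)).image (fun n => n j1)) ⊆
            Finset.Icc (-(M : ℤ)) M := by
          intro x hx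
          obtain ⟨n, hn, rfl⟩ := mem_image.1 hx
          have := (Fgc_memF.1 (mem_filter.1 hn).1).1 j1
          rw [mem_Icc]
          exact abs_le.1 this
        refine (card_le_card hsub).trans ?_
        rw [Int.card_Icc]
        omega
  refine (card_le_card hcov).trans ((card_union_le _ _).trans ?_)
  have h2 := (card_biUnion_le (s := (univ : Finset (Fin (r + 1)))) (t := fun j1 =>
      (Fgc_F (r + 1) M τ σ R).filter
        (fun n => (∀ j, (2 : ℝ) ^ (n j) * τ j ≤ (2 : ℝ) ^ (n j1) * τ j1) ∧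
          2 * |R| < (2 : ℝ) ^ (n j1) * τ j1))).trans (sum_le_card_nsmul _ _ _ hone)
  rw [card_univ, Fintype.card_fin, smul_eq_mul] at h2
  have h3 : (r + 1) * (r + 4) * C * M ^ (r / 2) ≤ (r + 1) * (r + 4) * C * M ^ ((r + 1) / 2) :=
    Nat.mul_le_mul_left _ hM'
  calc _ ≤ (r + 1) * (r + 4) * C * M ^ ((r + 1) / 2) +
        (r + 1) * (3 * C * M ^ ((r + 1) / 2)) := add_le_add (hG.trans h3) h2
    _ = _ := by ring

private theorem Fgc_all (r : ℕ) : ∃ C : ℕ, ∀ (M : ℕ) (τ σ : Fin r → ℝ) (R : ℝ), 1 ≤ M →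
    (∀ j, 0 < τ j) → (∀ j, σ j = 1 ∨ σ j = -1) →
    (Fgc_F r M τ σ R).card ≤ C * M ^ (r / 2) ∧
    (Fgc_G r M τ σ R).card ≤ C * M ^ ((r - 1) / 2) := by
  classical
  induction r with
  | zero =>
    refine ⟨1, ?_⟩
    intro M τ σ R hM _ _
    have h1 : (Fgc_F 0 M τ σ R).card ≤ 1 := by
      refine card_le_one.2 ?_
      intro a _ b _
      exact Subsingleton.elim a b
    have h2 : (Fgc_G 0 M τ σ R).card ≤ 1 := by
      refine card_le_one.2 ?_
      intro a _ b _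
      exact Subsingleton.elim a b
    simpa using ⟨h1, h2⟩
  | succ r ih =>
    obtain ⟨C, hC⟩ := ih
    refine ⟨(r + 1) * (r + 4) * C + (r + 1) * (3 * C), ?_⟩
    intro M τ σ R hM hτ hσ
    have h1 := Fgc_stepF hM (fun τ σ R a b => (hC M τ σ R hM a b).1)
      (fun τ σ R a b => (hC M τ σ R hM a b).2) τ σ R hτ hσ
    have h2 := Fgc_stepG (fun τ σ R a b => (hC M τ σ R hM a b).1) τ σ R hτ hσ
    refine ⟨h1, ?_⟩
    have h3 : (r + 1 - 1) / 2 = r / 2 := by simp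
    rw [h3]
    refine h2.trans (Nat.mul_le_mul_right _ ?_)
    exact Nat.le_add_right _ _

theorem card_near (r : ℕ) : ∃ C : ℕ, ∀ (M : ℕ) (τ σ : Fin r → ℝ) (R : ℝ), 1 ≤ M →
    (∀ j, 0 < τ j) → (∀ j, σ j = 1 ∨ σ j = -1) →
    {n : Fin r → ℤ | (∀ j, |n j| ≤ M) ∧
      ∀ j, |R + ∑ i, σ i * ((2 : ℝ) ^ (n i) * τ i)| ≤ (1 / 2) * ((2 : ℝ) ^ (n j) * τ j)}.ncard ≤
      C * M ^ (r / 2) := by
  obtain ⟨C, hC⟩ := Fgc_all r
  refine ⟨C, ?_⟩
  intro M τ σ R hM hτ hσ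
  have h1 := (hC M τ σ R hM hτ hσ).1
  have h2 : {n : Fin r → ℤ | (∀ j, |n j| ≤ M) ∧
      ∀ j, |R + ∑ i, σ i * ((2 : ℝ) ^ (n i) * τ i)| ≤ (1 / 2) * ((2 : ℝ) ^ (n j) * τ j)} =
      (Fgc_F r M τ σ R : Set (Fin r → ℤ)) := by
    ext n
    rw [Finset.mem_coe, Fgc_memF]
    exact Iff.rfl
  rw [h2, Set.ncard_coe_finset]
  exact h1

end Pool.Agent.H74.GC
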