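import Mathlib
import Pool.Agent.H68.GeomHyp

/-!
Definitions: points on the edges of a cycle of a simplex.
-/

namespace Pool.Agent.H74.GC

open Pool.Agent.H68

variable {q K s : ℕ}

/-- cyclic successor -/
def nxt (i : Fin q) : Fin q := ⟨((i : ℕ) + 1) % q, Nat.mod_lt _ i.pos⟩

/-- weight of the point `i` at the coordinate `i` (`p` is a parity) -/
noncomputable def wA (p i : ℕ) (z : ℝ) : ℝ := if (p + i) % 2 = 0 then z else 1

/-- weight of the point `i` at the coordinate `i + 1` -/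
noncomputable def wB (p i : ℕ) (z : ℝ) : ℝ := if (p + i) % 2 = 0 then 1 else z

/-- the position parameters: `2^a (1 + small)` -/
noncomputable def Zf (ζ : Fin s → ℝ) (b : Fin K × Fin s) : ℝ := 2 ^ (b.1 : ℕ) * ζ b.2

/-- condition on the small perturbations -/
def Sml (q : ℕ) (ζ : Fin s → ℝ) : Prop :=
  Function.Injective ζ ∧ ∀ l, 1 ≤ ζ l ∧ ζ l ≤ 1 + 1 / (16 * q)

/-- `x` is a nonnegative combination of the points of the tuple `t` -/
def Hit (p : ℕ) (Z : Fin K × Fin s → ℝ) (x : Fin q → ℝ) (t : Fin q → Fin K × Fin s) : Prop :=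
  ∃ y : Fin q → ℝ, (∀ i, 0 ≤ y i) ∧
    ∀ i : Fin q, x (nxt i) =
      wA p (nxt i : Fin q) (Z (t (nxt i))) * y (nxt i) + wB p i (Z (t i)) * y i

/-- balanced tuples -/
def Bal (p : ℕ) (t : Fin q → Fin K × Fin s) : Prop :=
  ∑ i : Fin q, (-1 : ℤ) ^ (p + (i : ℕ)) * (((t i).1 : ℕ) : ℤ) = 0

/-- ratio of the two weights -/
noncomputable def rat (p : ℕ) (Z : Fin K × Fin s → ℝ) (t : Fin q → Fin K × Fin s) (i : Fin q) : ℝ :=
  if (p + (i : ℕ)) % 2 = 0 then Z (t i) else (Z (t i))⁻¹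

/-- products of the first `j` ratios -/
noncomputable def cc (p : ℕ) (Z : Fin K × Fin s → ℝ) (t : Fin q → Fin K × Fin s) (j : ℕ) : ℝ :=
  ∏ i ∈ Finset.univ.filter (fun i : Fin q => (i : ℕ) < j), rat p Z t i

/-- rotation -/
def rot {β : Type*} (k : ℕ) (f : Fin q → β) : Fin q → β :=
  fun j => f ⟨(k + (j : ℕ)) % q, Nat.mod_lt _ j.pos⟩

/-- the point of `ℝ^d` with given barycentric coordinates -/
noncomputable def pnt {d : ℕ} (u : Fin (d + 1) → ℝ) : Pt d :=
  (WithLp.equiv 2 (Fin d → ℝ)).symm (fun i => u i.castSucc)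

/-- barycentric coordinates -/
noncomputable def bary {d : ℕ} (x : Pt d) : Fin (d + 1) → ℝ :=
  Fin.snoc (fun i => x i) (1 - ∑ i, x i)

/-- barycentric coordinates of the points of the configuration -/
noncomputable def bc {d : ℕ} (Z : Fin K × Fin s → ℝ) (i : Fin (d + 1) × (Fin K × Fin s)) :
    Fin (d + 1) → ℝ :=
  fun m => (if m = i.1 then wA 0 i.1 (Z i.2) / (Z i.2 + 1) else 0) +
    (if m = nxt i.1 then wB 0 i.1 (Z i.2) / (Z i.2 + 1) else 0)

/-- the points of the configuration -/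
noncomputable def vp {d : ℕ} (Z : Fin K × Fin s → ℝ) (i : Fin (d + 1) × (Fin K × Fin s)) : Pt d :=
  pnt (bc Z i)

/-- the vertex set of a tuple -/
def eg {β : Type*} [DecidableEq β] (t : Fin q → β) : Finset (Fin q × β) :=
  Finset.univ.image (fun i => (i, t i))

end Pool.Agent.H74.GC
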