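import Mathlib
import Pool.Agent.H74.GC.Dfs

/-!
Module Idn (the alternating sum).

Paper proof (complete). Let `y` be as in `Hit`, write `A j = wA p j (Z (t j))`, `B j = wB p j (Z (t j))`,
`c j = cc p Z t j`; `rat p Z t j = A j / B j`, `c 0 = 1`, `c (j+1) = c j * A j / B j`. The equations of
`Hit` are `x (j+1) = A (j+1) y (j+1) + B j y j` for `j + 1 < q` and, for the last index `j = q - 1`,
`nxt j = 0`: `x 0 = A 0 y 0 + B (q-1) y (q-1)`. By induction on `m`, `1 ≤ m ≤ q`: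
`∑_{j < m} (-1)^j c j x j = B (q-1) y (q-1) + (-1)^(m-1) c (m-1) A (m-1) y (m-1)`
(because `c (j+1) B j = c j A j`).
`idn_full`: `m = q` even: the sum is `y (q-1) (B (q-1) - c (q-1) A (q-1)) = B (q-1) y (q-1) (1 - c q)`, and
`0 ≤ B (q-1) y (q-1) ≤ x 0`.
`idn_part`: `x (q-1) = 0` implies `y (q-1) = 0` (all terms are nonnegative, `A > 0`), and `x L = 0`
(`1 ≤ L < q`) implies `B (L-1) y (L-1) = 0`, so `y (L-1) = 0`: the sum for `m = L` vanishes.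
-/

namespace Pool.Agent.H74.GC

variable {q K s : ℕ}

theorem cc_zero (p : ℕ) (Z : Fin K × Fin s → ℝ) (t : Fin q → Fin K × Fin s) :
    cc p Z t 0 = 1 := by
  unfold cc
  apply Finset.prod_eq_one
  intro i hi
  rw [Finset.mem_filter] at hi
  exact absurd hi.2 (Nat.not_lt_zero _)

private theorem Idn_filter (j : Fin q) :
    Finset.univ.filter (fun i : Fin q => (i : ℕ) < (j : ℕ) + 1) =
      insert j (Finset.univ.filter (fun i : Fin q => (i : ℕ) < (j : ℕ))) := by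
  ext i
  simp only [Finset.mem_filter, Finset.mem_univ, true_and, Finset.mem_insert]
  constructor
  · intro h
    rcases Nat.lt_succ_iff_lt_or_eq.1 h with h | h
    · exact Or.inr h
    · exact Or.inl (Fin.ext h)
  · rintro (h | h)
    · rw [h]
      exact Nat.lt_succ_self _
    · exact Nat.lt_succ_of_lt h

private theorem Idn_notMem (j : Fin q) :
    j ∉ Finset.univ.filter (fun i : Fin q => (i : ℕ) < (j : ℕ)) := by
  rw [Finset.mem_filter]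
  exact fun h => lt_irrefl _ h.2

theorem cc_succ (p : ℕ) (Z : Fin K × Fin s → ℝ) (t : Fin q → Fin K × Fin s) (j : Fin q) :
    cc p Z t ((j : ℕ) + 1) = cc p Z t j * rat p Z t j := by
  unfold cc
  rw [Idn_filter, Finset.prod_insert (Idn_notMem j), mul_comm]

private theorem Idn_sum (f : Fin q → ℝ) (j : Fin q) :
    ∑ i ∈ Finset.univ.filter (fun i : Fin q => (i : ℕ) < (j : ℕ) + 1), f i =
      ∑ i ∈ Finset.univ.filter (fun i : Fin q => (i : ℕ) < (j : ℕ)), f i + f j := by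
  rw [Idn_filter, Finset.sum_insert (Idn_notMem j), add_comm]

private theorem Idn_nxt (k : ℕ) (hk : k + 1 < q) :
    nxt (⟨k, by omega⟩ : Fin q) = ⟨k + 1, hk⟩ := by
  apply Fin.ext
  change (k + 1) % q = k + 1
  exact Nat.mod_eq_of_lt hk

private theorem Idn_last (hq : 2 ≤ q) :
    nxt (⟨q - 1, by omega⟩ : Fin q) = ⟨0, by omega⟩ := by
  apply Fin.ext
  change (q - 1 + 1) % q = 0
  rw [Nat.sub_add_cancel (by omega), Nat.mod_self]

private theorem Idn_rat (p : ℕ) (Z : Fin K × Fin s → ℝ) (hZ : ∀ b, 0 < Z b)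
    (t : Fin q → Fin K × Fin s) (i : Fin q) :
    rat p Z t i * wB p i (Z (t i)) = wA p i (Z (t i)) := by
  unfold rat wA wB
  have h := (hZ (t i)).ne'
  split_ifs
  · rw [mul_one]
  · exact inv_mul_cancel₀ h

private theorem Idn_A (p i : ℕ) {z : ℝ} (hz : 0 < z) : 0 < wA p i z := by
  unfold wA
  split_ifs
  · exact hz
  · exact one_pos

private theorem Idn_B (p i : ℕ) {z : ℝ} (hz : 0 < z) : 0 < wB p i z := by
  unfold wB
  split_ifs
  · exact one_pos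
  · exact hz

private theorem Idn_key (hq : 2 ≤ q) (p : ℕ) (Z : Fin K × Fin s → ℝ)
    (hZ : ∀ b, 0 < Z b) (x : Fin q → ℝ) (t : Fin q → Fin K × Fin s) (y : Fin q → ℝ)
    (h : ∀ i : Fin q, x (nxt i) =
      wA p (nxt i : Fin q) (Z (t (nxt i))) * y (nxt i) + wB p i (Z (t i)) * y i) (k : ℕ) :
    ∀ hk : k < q, ∑ j ∈ Finset.univ.filter (fun j : Fin q => (j : ℕ) < k + 1),
        (-1 : ℝ) ^ (j : ℕ) * (cc p Z t j * x j) =
      wB p (q - 1) (Z (t ⟨q - 1, by omega⟩)) * y ⟨q - 1, by omega⟩ +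
        (-1 : ℝ) ^ k * (cc p Z t k * (wA p k (Z (t ⟨k, hk⟩)) * y ⟨k, hk⟩)) := by
  induction k with
  | zero =>
    intro hk
    have h1 := Idn_sum (fun j : Fin q => (-1 : ℝ) ^ (j : ℕ) * (cc p Z t j * x j)) ⟨0, hk⟩
    have h2 := h ⟨q - 1, by omega⟩
    rw [Idn_last hq] at h2
    have h3 : ∑ i ∈ Finset.univ.filter (fun i : Fin q => (i : ℕ) < 0),
        (-1 : ℝ) ^ (i : ℕ) * (cc p Z t i * x i) = 0 := by
      apply Finset.sum_eq_zero
      intro i hi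
      rw [Finset.mem_filter] at hi
      exact absurd hi.2 (Nat.not_lt_zero _)
    change _ = ∑ i ∈ Finset.univ.filter (fun i : Fin q => (i : ℕ) < 0),
        (-1 : ℝ) ^ (i : ℕ) * (cc p Z t i * x i) +
          (-1 : ℝ) ^ 0 * (cc p Z t 0 * x ⟨0, hk⟩) at h1
    rw [h3, cc_zero, h2] at h1
    rw [cc_zero]
    refine h1.trans ?_
    ring
  | succ k ih =>
    intro hk
    have h1 := Idn_sum (fun j : Fin q => (-1 : ℝ) ^ (j : ℕ) * (cc p Z t j * x j)) ⟨k + 1, hk⟩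
    have h2 := h ⟨k, by omega⟩
    rw [Idn_nxt k hk] at h2
    have h3 := cc_succ p Z t ⟨k, by omega⟩
    have h4 := Idn_rat p Z hZ t ⟨k, by omega⟩
    change _ = ∑ i ∈ Finset.univ.filter (fun i : Fin q => (i : ℕ) < k + 1),
        (-1 : ℝ) ^ (i : ℕ) * (cc p Z t i * x i) +
          (-1 : ℝ) ^ (k + 1) * (cc p Z t (k + 1) * x ⟨k + 1, hk⟩) at h1
    change cc p Z t (k + 1) = cc p Z t k * rat p Z t ⟨k, by omega⟩ at h3
    change rat p Z t ⟨k, by omega⟩ * wB p k (Z (t ⟨k, by omega⟩)) =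
      wA p k (Z (t ⟨k, by omega⟩)) at h4
    change x ⟨k + 1, hk⟩ = wA p (k + 1) (Z (t ⟨k + 1, hk⟩)) * y ⟨k + 1, hk⟩ +
      wB p k (Z (t ⟨k, by omega⟩)) * y ⟨k, by omega⟩ at h2
    rw [ih (by omega), h2] at h1
    refine h1.trans ?_
    rw [← h4]
    rw [h3, pow_succ]
    ring

theorem idn_full (hq : 2 ≤ q) (he : q % 2 = 0) (p : ℕ) (Z : Fin K × Fin s → ℝ)
    (hZ : ∀ b, 0 < Z b) (x : Fin q → ℝ) (t : Fin q → Fin K × Fin s) (h : Hit p Z x t) :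
    |∑ j : Fin q, (-1 : ℝ) ^ (j : ℕ) * (cc p Z t j * x j)| ≤
      |1 - cc p Z t q| * x ⟨0, by omega⟩ := by
  obtain ⟨y, hy, h⟩ := h
  have h1 := Idn_key hq p Z hZ x t y h (q - 1) (by omega)
  have hf : Finset.univ.filter (fun j : Fin q => (j : ℕ) < q - 1 + 1) = Finset.univ := by
    apply Finset.filter_true_of_mem
    intro j _
    have := j.2
    omega
  rw [hf] at h1
  have h3 := cc_succ p Z t ⟨q - 1, by omega⟩
  have h4 := Idn_rat p Z hZ t ⟨q - 1, by omega⟩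
  have hq1 : q - 1 + 1 = q := by omega
  change cc p Z t (q - 1 + 1) = cc p Z t (q - 1) * rat p Z t ⟨q - 1, by omega⟩ at h3
  rw [hq1] at h3
  change rat p Z t ⟨q - 1, by omega⟩ * wB p (q - 1) (Z (t ⟨q - 1, by omega⟩)) =
    wA p (q - 1) (Z (t ⟨q - 1, by omega⟩)) at h4
  have h5 : (-1 : ℝ) ^ (q - 1) = -1 := Odd.neg_one_pow (Nat.odd_iff.2 (by omega))
  have h2 := h ⟨q - 1, by omega⟩
  rw [Idn_last hq] at h2
  change x ⟨0, by omega⟩ = wA p 0 (Z (t ⟨0, by omega⟩)) * y ⟨0, by omega⟩ +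
      wB p (q - 1) (Z (t ⟨q - 1, by omega⟩)) * y ⟨q - 1, by omega⟩ at h2
  have h6 : ∑ j : Fin q, (-1 : ℝ) ^ (j : ℕ) * (cc p Z t j * x j) =
      (1 - cc p Z t q) * (wB p (q - 1) (Z (t ⟨q - 1, by omega⟩)) * y ⟨q - 1, by omega⟩) := by
    rw [h1, h5, ← h4, h3]
    ring
  rw [h6, abs_mul]
  refine mul_le_mul_of_nonneg_left ?_ (abs_nonneg _)
  rw [abs_of_nonneg (mul_nonneg (Idn_B p _ (hZ _)).le (hy _)), h2]
  exact le_add_of_nonneg_left (mul_nonneg (Idn_A p _ (hZ _)).le (hy _))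

theorem idn_part (hq : 2 ≤ q) (p : ℕ) (Z : Fin K × Fin s → ℝ)
    (hZ : ∀ b, 0 < Z b) (x : Fin q → ℝ) (t : Fin q → Fin K × Fin s) (h : Hit p Z x t)
    (h0 : x ⟨q - 1, by omega⟩ = 0) (L : Fin q) (hL : 1 ≤ (L : ℕ)) (hxL : x L = 0) :
    ∑ j ∈ Finset.univ.filter (fun j : Fin q => (j : ℕ) < L),
      (-1 : ℝ) ^ (j : ℕ) * (cc p Z t j * x j) = 0 := by
  obtain ⟨y, hy, h⟩ := h
  obtain ⟨L, hLq⟩ := L
  change 1 ≤ L at hL
  obtain ⟨k, rfl⟩ : ∃ k, L = k + 1 := ⟨L - 1, by omega⟩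
  have h1 := Idn_key hq p Z hZ x t y h k (by omega)
  have h2 := h ⟨k, by omega⟩
  rw [Idn_nxt k hLq, hxL] at h2
  have h3 := h ⟨q - 2, by omega⟩
  rw [Idn_nxt (q - 2) (by omega)] at h3
  have hq1 : q - 2 + 1 = q - 1 := by omega
  have hq2 : (⟨q - 2 + 1, by omega⟩ : Fin q) = ⟨q - 1, by omega⟩ := Fin.ext hq1
  rw [hq2, h0] at h3
  have h4 : y ⟨k, by omega⟩ = 0 := by
    have h5 := mul_nonneg (Idn_A p (((⟨k + 1, hLq⟩ : Fin q)) : ℕ) (hZ (t ⟨k + 1, hLq⟩))).le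
      (hy ⟨k + 1, hLq⟩)
    have h6 := Idn_B p (((⟨k, by omega⟩ : Fin q)) : ℕ) (hZ (t ⟨k, by omega⟩))
    have h7 := hy ⟨k, by omega⟩
    have h8 := mul_nonneg h6.le h7
    have h9 : wB p (((⟨k, by omega⟩ : Fin q)) : ℕ) (Z (t ⟨k, by omega⟩)) * y ⟨k, by omega⟩ = 0 := by
      linarith
    exact (mul_eq_zero.1 h9).resolve_left h6.ne'
  have h10 : y ⟨q - 1, by omega⟩ = 0 := by
    have h6 := Idn_A p (((⟨q - 1, by omega⟩ : Fin q)) : ℕ) (hZ (t ⟨q - 1, by omega⟩))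
    have h7 := hy ⟨q - 1, by omega⟩
    have h5 := mul_nonneg (Idn_B p (((⟨q - 2, by omega⟩ : Fin q)) : ℕ)
      (hZ (t ⟨q - 2, by omega⟩))).le (hy ⟨q - 2, by omega⟩)
    have h8 := mul_nonneg h6.le h7
    have h9 : wA p (((⟨q - 1, by omega⟩ : Fin q)) : ℕ) (Z (t ⟨q - 1, by omega⟩)) *
        y ⟨q - 1, by omega⟩ = 0 := by
      linarith
    exact (mul_eq_zero.1 h9).resolve_left h6.ne'
  refine h1.trans ?_
  rw [h4, h10, mul_zero, mul_zero, mul_zero, mul_zero, add_zero]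

end Pool.Agent.H74.GC
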