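import Mathlib
import Pool.Agent.H74.GC.Dfs

/-!
Module Rot (rotations).

Paper proof (complete). `rot_injective`: `j ↦ (k + j) % q` is a bijection of `Fin q`. `hit_rot`: take
`rot k y`; `nxt` commutes with the rotation, and the parity `p + k + j` has the same residue mod `2` as
`p + ((k + j) % q)` because `q` is even. `bal_rot`: the sum is reindexed by the same bijection, the sign
`(-1)^(p+k+j)` only depends on the residue mod `2`. `cc_full`: `cc p Z t q` is the product over all `i` of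
`rat p Z t i`; for a balanced tuple the powers of `2` cancel (`(-1)^(p+i)` is the sign of the exponent of
`2` in `rat`), the remaining factors are `(ζ l)^{±1}` with `1 ≤ ζ l ≤ 1 + 1/(16 q)`, `q` of them, and
`(1 + 1/(16 q))^q ≤ 1 / (1 - 1/16) = 16/15` (Bernoulli: `(1 - 1/(16q+1))^q ≥ 1 - q/(16 q + 1) ≥ 15/16`),
so `15/16 ≤ cc p Z t q ≤ 16/15`.
`good_cut`: let `k` be the index (`< q`) which minimises `cc 0 Z t i * x i` over `i : Fin q`. For
`k + j < q`: `cc k Z (rot k t) j = cc 0 Z t (k + j) / cc 0 Z t k`; for `k + j ≥ q` it is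
`cc 0 Z t q * cc 0 Z t (k + j - q) / cc 0 Z t k` (products over intervals of indices of the cycle, the
parities agree). So `cc k Z (rot k t) j * rot k x j ≥ (15/16) * rot k x 0 ≥ (9/10) * rot k x 0`.
-/

namespace Pool.Agent.H74.GC

variable {q K s : ℕ}

/-- the rotation of the indices -/
private noncomputable def rho (k : ℕ) : Fin q ≃ Fin q :=
  Equiv.ofBijective (fun j : Fin q => (⟨(k + (j : ℕ)) % q, Nat.mod_lt _ j.pos⟩ : Fin q)) <| by
    refine Finite.injective_iff_bijective.mp fun a b hab => ?_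
    have h1 : (k + (a : ℕ)) % q = (k + (b : ℕ)) % q := congrArg Fin.val hab
    have h2 : (a : ℕ) % q = (b : ℕ) % q := Nat.ModEq.add_left_cancel' k h1
    rw [Nat.mod_eq_of_lt a.isLt, Nat.mod_eq_of_lt b.isLt] at h2
    exact Fin.ext h2

private theorem rho_val (k : ℕ) (j : Fin q) : ((rho k j : Fin q) : ℕ) = (k + (j : ℕ)) % q := rfl

private theorem rot_eq {β : Type*} (k : ℕ) (f : Fin q → β) (j : Fin q) : rot k f j = f (rho k j) :=
  rfl

private theorem rho_nxt (k : ℕ) (i : Fin q) : rho k (nxt i) = nxt (rho k i) := by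
  refine Fin.ext ?_
  show (k + ((i : ℕ) + 1) % q) % q = ((k + (i : ℕ)) % q + 1) % q
  rw [Nat.add_mod_mod, Nat.mod_add_mod, add_assoc]

private theorem par (he : q % 2 = 0) (p k : ℕ) (j : Fin q) :
    (p + k + (j : ℕ)) % 2 = (p + ((rho k j : Fin q) : ℕ)) % 2 := by
  rw [rho_val]
  have h1 : (k + (j : ℕ)) % q % 2 = (k + (j : ℕ)) % 2 :=
    Nat.mod_mod_of_dvd _ (Nat.dvd_of_mod_eq_zero he)
  omega

theorem rot_injective {β : Type*} (k : ℕ) :
    Function.Injective (rot k : (Fin q → β) → (Fin q → β)) := by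
  intro f g h
  funext i
  have h1 := congrFun h ((rho k).symm i)
  rw [rot_eq, rot_eq, Equiv.apply_symm_apply] at h1
  exact h1

theorem hit_rot (he : q % 2 = 0) (p k : ℕ) (Z : Fin K × Fin s → ℝ) (x : Fin q → ℝ)
    (t : Fin q → Fin K × Fin s) (h : Hit p Z x t) : Hit (p + k) Z (rot k x) (rot k t) := by
  obtain ⟨y, hy, hx⟩ := h
  refine ⟨rot k y, fun i => hy _, fun i => ?_⟩
  simp only [rot_eq]
  have h1 := hx (rho k i)
  rw [← rho_nxt] at h1
  rw [h1]
  simp only [wA, wB, par he p k]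

private theorem sgn_par {a b : ℕ} (h : a % 2 = b % 2) : (-1 : ℤ) ^ a = (-1 : ℤ) ^ b := by
  rw [neg_one_pow_eq_pow_mod_two, h, ← neg_one_pow_eq_pow_mod_two]

theorem bal_rot (he : q % 2 = 0) (p k : ℕ) (t : Fin q → Fin K × Fin s) (h : Bal p t) :
    Bal (p + k) (rot k t) := by
  unfold Bal at h ⊢
  rw [← h, ← Equiv.sum_comp (rho k)
    (fun i : Fin q => (-1 : ℤ) ^ (p + (i : ℕ)) * (((t i).1 : ℕ) : ℤ))]
  refine Finset.sum_congr rfl fun i _ => ?_
  rw [rot_eq, sgn_par (par he p k i)]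

private theorem cc_q (p : ℕ) (Z : Fin K × Fin s → ℝ) (t : Fin q → Fin K × Fin s) :
    cc p Z t q = ∏ i, rat p Z t i := by
  unfold cc
  congr 1
  ext i
  simp

private theorem prod_zpow_two {ι : Type*} (S : Finset ι) (f : ι → ℤ) :
    ∏ i ∈ S, (2 : ℝ) ^ (f i) = 2 ^ (∑ i ∈ S, f i) := by
  classical
  induction S using Finset.induction_on with
  | empty => simp
  | insert a S ha ih => rw [Finset.prod_insert ha, Finset.sum_insert ha, zpow_add₀ two_ne_zero, ih]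

private theorem rat_zpow (p : ℕ) (ζ : Fin s → ℝ) (t : Fin q → Fin K × Fin s) (i : Fin q) :
    rat p (Zf ζ) t i = (2 : ℝ) ^ ((-1 : ℤ) ^ (p + (i : ℕ)) * (((t i).1 : ℕ) : ℤ)) *
      (if (p + (i : ℕ)) % 2 = 0 then ζ (t i).2 else (ζ (t i).2)⁻¹) := by
  unfold rat Zf
  by_cases hp : (p + (i : ℕ)) % 2 = 0
  · rw [if_pos hp, if_pos hp, sgn_par (b := 0) (by simpa using hp), pow_zero, one_mul,
      zpow_natCast]
  · rw [if_neg hp, if_neg hp, sgn_par (b := 1) (by omega), pow_one, neg_one_mul, zpow_neg,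
      zpow_natCast, mul_inv]

theorem cc_full (hq : 2 ≤ q) (p : ℕ) (ζ : Fin s → ℝ) (hζ : Sml q ζ)
    (t : Fin q → Fin K × Fin s) (h : Bal p t) :
    15 / 16 ≤ cc p (Zf ζ) t q ∧ cc p (Zf ζ) t q ≤ 16 / 15 := by
  have hq0 : (0 : ℝ) < q := by exact_mod_cast (by omega : 0 < q)
  have h1 : cc p (Zf ζ) t q =
      ∏ i : Fin q, (if (p + (i : ℕ)) % 2 = 0 then ζ (t i).2 else (ζ (t i).2)⁻¹) := by
    rw [cc_q, Finset.prod_congr rfl fun i _ => rat_zpow p ζ t i, Finset.prod_mul_distrib]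
    have h2 : ∏ i : Fin q, (2 : ℝ) ^ ((-1 : ℤ) ^ (p + (i : ℕ)) * (((t i).1 : ℕ) : ℤ)) = 1 := by
      rw [prod_zpow_two]
      unfold Bal at h
      rw [h, zpow_zero]
    rw [h2, one_mul]
  set u : ℝ := 1 + (-(1 / (16 * q + 1))) with hu
  have hv : (1 + 1 / (16 * q) : ℝ) * u = 1 := by
    rw [hu]
    field_simp
    ring
  have hu0 : 0 < u := by
    have h3 : (1 : ℝ) / (16 * q + 1) < 1 := by
      rw [div_lt_one (by positivity)]
      linarith
    rw [hu]
    linarith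
  have huq : 15 / 16 ≤ u ^ q := by
    have h4 : 1 + (q : ℝ) * (-(1 / (16 * q + 1))) ≤ (1 + (-(1 / (16 * q + 1)))) ^ q := by
      refine one_add_mul_le_pow ?_ q
      rw [hu] at hu0
      linarith
    have h5 : (q : ℝ) * (1 / (16 * q + 1)) ≤ 1 / 16 := by
      rw [mul_one_div, div_le_div_iff₀ (by positivity) (by norm_num)]
      linarith
    rw [hu]
    linarith
  have hf : ∀ i : Fin q, u ≤ (if (p + (i : ℕ)) % 2 = 0 then ζ (t i).2 else (ζ (t i).2)⁻¹) ∧
      (if (p + (i : ℕ)) % 2 = 0 then ζ (t i).2 else (ζ (t i).2)⁻¹) ≤ u⁻¹ := by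
    intro i
    obtain ⟨ha, hb⟩ := hζ.2 (t i).2
    have hu1 : u ≤ 1 := by
      rw [hu]
      have : (0 : ℝ) ≤ 1 / (16 * q + 1) := by positivity
      linarith
    have hui : u⁻¹ = 1 + 1 / (16 * q) := by
      rw [inv_eq_iff_eq_inv]
      exact eq_inv_of_mul_eq_one_right hv
    have hz : 0 < ζ (t i).2 := by linarith
    have h6 : (ζ (t i).2) ≤ u⁻¹ := by rw [hui]; exact hb
    split_ifs
    · exact ⟨by linarith, h6⟩
    · refine ⟨?_, ?_⟩
      · rw [le_inv_comm₀ hu0 hz]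
        exact h6
      · calc (ζ (t i).2)⁻¹ ≤ 1 := inv_le_one_of_one_le₀ ha
          _ ≤ u⁻¹ := (one_le_inv₀ hu0).mpr hu1
  rw [h1]
  constructor
  · calc (15 / 16 : ℝ) ≤ u ^ q := huq
      _ = ∏ _i : Fin q, u := by simp
      _ ≤ _ := Finset.prod_le_prod (fun i _ => hu0.le) fun i _ => (hf i).1
  · calc _ ≤ ∏ _i : Fin q, u⁻¹ :=
          Finset.prod_le_prod (fun i _ => hu0.le.trans (hf i).1) fun i _ => (hf i).2
      _ = (u ^ q)⁻¹ := by simp
      _ ≤ (15 / 16 : ℝ)⁻¹ := inv_anti₀ (by norm_num) huq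
      _ = 16 / 15 := by norm_num

private theorem cc_range (hq : 0 < q) (p : ℕ) (Z : Fin K × Fin s → ℝ) (t : Fin q → Fin K × Fin s)
    (j : ℕ) (hj : j ≤ q) :
    cc p Z t j = ∏ i ∈ Finset.range j, rat p Z t ⟨i % q, Nat.mod_lt _ hq⟩ := by
  unfold cc
  refine Finset.prod_bij (fun (i : Fin q) _ => (i : ℕ)) (fun i hi => ?_) (fun a _ b _ hab => ?_)
    (fun b hb => ?_) (fun i hi => ?_)
  · rw [Finset.mem_filter] at hi
    exact Finset.mem_range.mpr hi.2
  · exact Fin.ext hab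
  · have hb' := Finset.mem_range.mp hb
    exact ⟨⟨b, lt_of_lt_of_le hb' hj⟩, by simp [hb'], rfl⟩
  · congr 1
    exact Fin.ext (Nat.mod_eq_of_lt i.isLt).symm

private theorem rat_rot (he : q % 2 = 0) (k : ℕ) (Z : Fin K × Fin s → ℝ)
    (t : Fin q → Fin K × Fin s) (i : Fin q) : rat k Z (rot k t) i = rat 0 Z t (rho k i) := by
  unfold rat
  have h1 := par he 0 k i
  rw [zero_add] at h1
  rw [h1, rot_eq]

theorem good_cut (hq : 2 ≤ q) (he : q % 2 = 0) (ζ : Fin s → ℝ) (hζ : Sml q ζ)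
    (x : Fin q → ℝ) (hx : ∀ i, 0 < x i) (t : Fin q → Fin K × Fin s) (h : Bal 0 t) :
    ∃ k : Fin q, ∀ j : Fin q,
      (9 / 10) * rot k x ⟨0, by omega⟩ ≤ cc k (Zf ζ) (rot k t) j * rot k x j := by
  have hq0 : 0 < q := by omega
  have : Nonempty (Fin q) := ⟨⟨0, hq0⟩⟩
  obtain ⟨k, hk⟩ := Finite.exists_min (fun i : Fin q => cc 0 (Zf ζ) t i * x i)
  have hZ : ∀ b : Fin K × Fin s, 0 < Zf ζ b := fun b => by
    unfold Zf
    have := (hζ.2 b.2).1
    positivity
  have hr : ∀ p (t' : Fin q → Fin K × Fin s) i, 0 < rat p (Zf ζ) t' i := fun p t' i => by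
    unfold rat
    split_ifs
    · exact hZ _
    · exact inv_pos.mpr (hZ _)
  have hcc : ∀ p (t' : Fin q → Fin K × Fin s) j, 0 < cc p (Zf ζ) t' j := fun p t' j =>
    Finset.prod_pos fun i _ => hr p t' i
  set r : ℕ → ℝ := fun i => rat 0 (Zf ζ) t ⟨i % q, Nat.mod_lt _ hq0⟩ with hrdef
  have hP : ∀ j, j ≤ q → cc 0 (Zf ζ) t j = ∏ i ∈ Finset.range j, r i := fun j hj =>
    cc_range hq0 0 (Zf ζ) t j hj
  refine ⟨k, fun j => ?_⟩
  have hC : cc k (Zf ζ) (rot k t) j = ∏ i ∈ Finset.range j, r (k + i) := by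
    rw [cc_range hq0 k (Zf ζ) (rot k t) j j.isLt.le]
    refine Finset.prod_congr rfl fun i hi => ?_
    rw [rat_rot he]
    show rat 0 (Zf ζ) t _ = rat 0 (Zf ζ) t _
    congr 1
    refine Fin.ext ?_
    show ((k : ℕ) + i % q) % q = ((k : ℕ) + i) % q
    rw [Nat.add_mod_mod]
  have hmul : cc 0 (Zf ζ) t k * cc k (Zf ζ) (rot k t) j = ∏ i ∈ Finset.range (k + j), r i := by
    rw [hC, hP k k.isLt.le, Finset.prod_range_add]
  have hx0 : rot k x ⟨0, by omega⟩ = x k := by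
    show x _ = x k
    congr 1
    refine Fin.ext ?_
    show ((k : ℕ) + 0) % q = k
    rw [add_zero, Nat.mod_eq_of_lt k.isLt]
  have hfull := (cc_full hq 0 ζ hζ t h).1
  have hPk := hcc 0 t k
  rw [hx0]
  have hxk := hx k
  have goal1 : ∀ a : ℝ, (9 / 10) * (cc 0 (Zf ζ) t k * x k) ≤
      cc 0 (Zf ζ) t k * (cc k (Zf ζ) (rot k t) j * rot k x j) →
      (9 / 10) * x k ≤ cc k (Zf ζ) (rot k t) j * rot k x j := fun _ h1 => by
    refine le_of_mul_le_mul_left ?_ hPk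
    linarith
  refine goal1 0 ?_
  rw [← mul_assoc (cc 0 (Zf ζ) t k), hmul]
  have hpos : 0 < cc 0 (Zf ζ) t k * x k := mul_pos hPk hxk
  by_cases hkj : (k : ℕ) + j < q
  · have e1 : rot k x j = x ⟨(k : ℕ) + j, hkj⟩ := by
      show x _ = x _
      congr 1
      exact Fin.ext (Nat.mod_eq_of_lt hkj)
    have h2 := hk ⟨(k : ℕ) + j, hkj⟩
    simp only at h2
    rw [hP ((k : ℕ) + j) hkj.le] at h2
    rw [e1]
    linarith
  · push Not at hkj
    have hlt : (k : ℕ) + j - q < q := by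
      have := k.isLt
      have := j.isLt
      omega
    have e1 : rot k x j = x ⟨(k : ℕ) + j - q, hlt⟩ := by
      show x _ = x _
      congr 1
      refine Fin.ext ?_
      show ((k : ℕ) + j) % q = (k : ℕ) + j - q
      rw [Nat.mod_eq_sub_mod hkj, Nat.mod_eq_of_lt hlt]
    have h2 := hk ⟨(k : ℕ) + j - q, hlt⟩
    simp only at h2
    have e2 : ∏ i ∈ Finset.range ((k : ℕ) + j), r i =
        cc 0 (Zf ζ) t q * cc 0 (Zf ζ) t ((k : ℕ) + j - q) := by
      have e3 : (k : ℕ) + j = q + ((k : ℕ) + j - q) := by omega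
      rw [hP q le_rfl, hP ((k : ℕ) + j - q) hlt.le]
      conv_lhs => rw [e3]
      rw [Finset.prod_range_add]
      congr 1
      refine Finset.prod_congr rfl fun i _ => ?_
      simp only [hrdef, Nat.add_mod_left]
    rw [e1, e2, mul_assoc]
    have h3 : 15 / 16 * (cc 0 (Zf ζ) t k * x k) ≤
        cc 0 (Zf ζ) t q * (cc 0 (Zf ζ) t ((k : ℕ) + j - q) * x ⟨(k : ℕ) + j - q, hlt⟩) :=
      mul_le_mul hfull h2 hpos.le (by linarith)
    linarith

end Pool.Agent.H74.GC
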