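import Mathlib
import Pool.Agent.H74.GC.Fgc
import Pool.Agent.H74.GC.Idn
import Pool.Agent.H74.GC.Rot

/-!
Module PosC (positive coordinates, cut at `0`).

Paper proof (complete). Let `C1` be the constant of `card_near (q - 1)` and `C = C1 * q^q` (or
anything large). Write `q = r + 1` (`r = q - 1`). Fix the function `l = fun i => (t i).2` (there are
`s^q` of them); it remains to show that at most `C * K^((q-1)/2)` balanced tuples `t` with these second
components are in the set. For such `t` let `n j = ∑_{i ≤ j} ± (t i).1` (`j < r`), the sign being `+` if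
`p + i` is even, so that `cc p (Zf ζ) t (j+1) = 2^(n j) * w j` where `w j > 0` is the product of the
`(ζ (l i))^{±1}`, `i ≤ j`, which depends only on `l`. Put `R = x 0`, `τ j = w j * x (j+1)`,
`σ j = (-1)^(j+1)`, `M = q * K`; `|n j| ≤ M`. The sum of `idn_full` is
`R + ∑ j, σ j * (2^(n j) * τ j)`, of absolute value at most `|1 - cc q| * x 0 ≤ (1/15) x 0` (`cc_full`),
and `2^(n j) * τ j ≥ (9/10) x 0`, so it is at most `(1/2) * (2^(n j) τ j)`: `n` is in the set of
`card_near`, which has at most `C1 * (q K)^((q-1)/2)` elements. `t` is determined by `n` and `l`: the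
first components of `t 0, .., t (r-1)` are the differences of `n`, the one of `t (q-1)` follows from the
balance.
-/

namespace Pool.Agent.H74.GC

private def PosC_sg (p i : ℕ) : ℤ := if (p + i) % 2 = 0 then 1 else -1

private lemma PosC_sg_pow (p i : ℕ) : PosC_sg p i = (-1 : ℤ) ^ (p + i) := by
  unfold PosC_sg
  split_ifs with h
  · exact (Even.neg_one_pow (Nat.even_iff.mpr h)).symm
  · exact (Odd.neg_one_pow (Nat.odd_iff.mpr (by omega))).symm

private lemma PosC_sg_abs (p i : ℕ) : |PosC_sg p i| = 1 := by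
  unfold PosC_sg
  split_ifs <;> simp

/-- partial sums of the exponents -/
private def PosC_n {q K s : ℕ} (p : ℕ) (t : Fin q → Fin K × Fin s) (j : ℕ) : ℤ :=
  ∑ i ∈ Finset.univ.filter (fun i : Fin q => (i : ℕ) < j), PosC_sg p i * (((t i).1 : ℕ) : ℤ)

/-- the part of the product which depends on the second components -/
private noncomputable def PosC_v {s : ℕ} (p : ℕ) (ζ : Fin s → ℝ) (i : ℕ) (l : Fin s) : ℝ :=
  if (p + i) % 2 = 0 then ζ l else (ζ l)⁻¹

private noncomputable def PosC_w {q s : ℕ} (p : ℕ) (ζ : Fin s → ℝ) (l : Fin q → Fin s) (j : ℕ) : ℝ :=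
  ∏ i ∈ Finset.univ.filter (fun i : Fin q => (i : ℕ) < j), PosC_v p ζ i (l i)

private lemma PosC_zpow {ι : Type*} [DecidableEq ι] (S : Finset ι) (g : ι → ℤ) :
    ∏ i ∈ S, (2 : ℝ) ^ (g i) = (2 : ℝ) ^ (∑ i ∈ S, g i) := by
  induction S using Finset.induction_on with
  | empty => simp
  | insert a S ha ih =>
    rw [Finset.prod_insert ha, Finset.sum_insert ha, ih, zpow_add₀ (by norm_num)]

private lemma PosC_rat {q K s : ℕ} (p : ℕ) (ζ : Fin s → ℝ) (t : Fin q → Fin K × Fin s) (i : Fin q) :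
    rat p (Zf ζ) t i = (2 : ℝ) ^ (PosC_sg p i * (((t i).1 : ℕ) : ℤ)) * PosC_v p ζ i (t i).2 := by
  unfold rat PosC_sg PosC_v Zf
  split_ifs with h
  · rw [one_mul, zpow_natCast]
  · rw [neg_one_mul, zpow_neg, zpow_natCast, mul_inv]

private lemma PosC_cc {q K s : ℕ} (p : ℕ) (ζ : Fin s → ℝ) (t : Fin q → Fin K × Fin s) (j : ℕ) :
    cc p (Zf ζ) t j = (2 : ℝ) ^ (PosC_n p t j) * PosC_w p ζ (fun i => (t i).2) j := by
  unfold cc PosC_n PosC_w
  rw [← PosC_zpow, ← Finset.prod_mul_distrib]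
  exact Finset.prod_congr rfl fun i _ => PosC_rat p ζ t i

private lemma PosC_w_pos {q s : ℕ} (p : ℕ) (ζ : Fin s → ℝ) (hζ : ∀ l, 0 < ζ l) (l : Fin q → Fin s)
    (j : ℕ) : 0 < PosC_w p ζ l j := by
  unfold PosC_w
  refine Finset.prod_pos fun i _ => ?_
  unfold PosC_v
  split_ifs
  · exact hζ _
  · exact inv_pos.mpr (hζ _)

private lemma PosC_n_succ {q K s : ℕ} (p : ℕ) (t : Fin q → Fin K × Fin s) (j : Fin q) :
    PosC_n p t ((j : ℕ) + 1) = PosC_n p t j + PosC_sg p j * (((t j).1 : ℕ) : ℤ) := by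
  unfold PosC_n
  have h : Finset.univ.filter (fun i : Fin q => (i : ℕ) < (j : ℕ) + 1) =
      insert j (Finset.univ.filter (fun i : Fin q => (i : ℕ) < (j : ℕ))) := by
    ext i
    simp only [Finset.mem_filter, Finset.mem_univ, true_and, Finset.mem_insert, Fin.ext_iff]
    omega
  rw [h, Finset.sum_insert (by simp), add_comm]

private lemma PosC_n_abs {q K s : ℕ} (p : ℕ) (t : Fin q → Fin K × Fin s) (j : ℕ) :
    |PosC_n p t j| ≤ ((q * K : ℕ) : ℤ) := by
  unfold PosC_n
  refine (Finset.abs_sum_le_sum_abs _ _).trans ?_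
  have h1 : ∀ i ∈ Finset.univ.filter (fun i : Fin q => (i : ℕ) < j),
      |PosC_sg p i * (((t i).1 : ℕ) : ℤ)| ≤ (K : ℤ) := by
    intro i _
    rw [abs_mul, PosC_sg_abs, one_mul, abs_of_nonneg (Int.natCast_nonneg _)]
    exact_mod_cast (t i).1.isLt.le
  refine (Finset.sum_le_card_nsmul _ _ _ h1).trans ?_
  have h2 : (Finset.univ.filter (fun i : Fin q => (i : ℕ) < j)).card ≤ q := by
    refine (Finset.card_le_univ _).trans ?_
    rw [Fintype.card_fin]
  rw [nsmul_eq_mul]
  push_cast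
  exact mul_le_mul_of_nonneg_right (by exact_mod_cast h2) (Int.natCast_nonneg _)

theorem card_pos_cut (q : ℕ) (hq : 2 ≤ q) (he : q % 2 = 0) :
    ∃ C : ℕ, ∀ (K s p : ℕ) (ζ : Fin s → ℝ) (x : Fin q → ℝ), 1 ≤ K → Sml q ζ →
      (∀ i, 0 < x i) →
      {t : Fin q → Fin K × Fin s | Bal p t ∧ Hit p (Zf ζ) x t ∧
        ∀ j : Fin q, (9 / 10) * x ⟨0, by omega⟩ ≤ cc p (Zf ζ) t j * x j}.ncard ≤
        C * (K ^ ((q - 1) / 2) * s ^ q) := by
  classical
  obtain ⟨r, rfl⟩ : ∃ r, q = r + 1 := ⟨q - 1, by omega⟩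
  obtain ⟨C1, hC1⟩ := card_near r
  refine ⟨C1 * (r + 1) ^ (r / 2), ?_⟩
  intro K s p ζ x hK hζ hx
  have hζ0 : ∀ l, 0 < ζ l := fun l => lt_of_lt_of_le one_pos (hζ.2 l).1
  set S : Set (Fin (r + 1) → Fin K × Fin s) := {t | Bal p t ∧ Hit p (Zf ζ) x t ∧
        ∀ j : Fin (r + 1), (9 / 10) * x ⟨0, by omega⟩ ≤ cc p (Zf ζ) t j * x j} with hS
  have hfib : ∀ l : Fin (r + 1) → Fin s,
      {t | t ∈ S ∧ (fun i => (t i).2) = l}.ncard ≤ C1 * ((r + 1) * K) ^ (r / 2) := by
    intro l
    have hnear := hC1 ((r + 1) * K) (fun j => PosC_w p ζ l ((j : ℕ) + 1) * x j.succ)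
      (fun j => (-1 : ℝ) ^ ((j : ℕ) + 1)) (x 0) (Nat.mul_pos (Nat.succ_pos r) hK)
      (fun j => mul_pos (PosC_w_pos p ζ hζ0 l _) (hx _))
      (fun j => neg_one_pow_eq_or ℝ _)
    refine le_trans (Set.ncard_le_ncard_of_injOn
      (fun t : Fin (r + 1) → Fin K × Fin s => fun j : Fin r => PosC_n p t ((j : ℕ) + 1)) ?_ ?_ ?_) hnear
    · -- into the set
      rintro t ⟨⟨hb, hh, hc⟩, hl⟩
      refine ⟨fun j => ?_, fun j => ?_⟩
      · exact PosC_n_abs p t _
      · have hterm : ∀ i : Fin r, (2 : ℝ) ^ (PosC_n p t ((i : ℕ) + 1)) *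
            (PosC_w p ζ l ((i : ℕ) + 1) * x i.succ) = cc p (Zf ζ) t ((i : ℕ) + 1) * x i.succ := by
          intro i
          rw [PosC_cc, hl]
          ring
        have hsum : x 0 + ∑ i : Fin r, (-1 : ℝ) ^ ((i : ℕ) + 1) *
            ((2 : ℝ) ^ (PosC_n p t ((i : ℕ) + 1)) * (PosC_w p ζ l ((i : ℕ) + 1) * x i.succ)) =
            ∑ j : Fin (r + 1), (-1 : ℝ) ^ (j : ℕ) * (cc p (Zf ζ) t j * x j) := by
          rw [Fin.sum_univ_succ]
          congr 1
          · rw [Fin.val_zero, pow_zero, one_mul, cc_zero, one_mul]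
          · refine Finset.sum_congr rfl fun i _ => ?_
            rw [hterm i, Fin.val_succ]
        have h1 := idn_full hq he p (Zf ζ) (fun b => by
          unfold Zf
          exact mul_pos (pow_pos (by norm_num) _) (hζ0 _)) x t hh
        have h2 := cc_full hq p ζ hζ t hb
        have hx0 : 0 < x 0 := hx 0
        have h3 : |1 - cc p (Zf ζ) t (r + 1)| ≤ 1 / 15 := by
          rw [abs_le]
          constructor <;> linarith [h2.1, h2.2]
        have h4 : |∑ j : Fin (r + 1), (-1 : ℝ) ^ (j : ℕ) * (cc p (Zf ζ) t j * x j)| ≤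
            (1 / 15) * x 0 :=
          h1.trans (mul_le_mul_of_nonneg_right h3 hx0.le)
        have h5 : (9 / 10) * x 0 ≤ cc p (Zf ζ) t ((j : ℕ) + 1) * x j.succ := hc j.succ
        show |x 0 + ∑ i : Fin r, (-1 : ℝ) ^ ((i : ℕ) + 1) *
            ((2 : ℝ) ^ (PosC_n p t ((i : ℕ) + 1)) * (PosC_w p ζ l ((i : ℕ) + 1) * x i.succ))| ≤
            (1 / 2) * ((2 : ℝ) ^ (PosC_n p t ((j : ℕ) + 1)) *
              (PosC_w p ζ l ((j : ℕ) + 1) * x j.succ))
        rw [hsum, hterm j]
        linarith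
    · -- injective
      rintro t ⟨⟨hb, -, -⟩, hl⟩ t' ⟨⟨hb', -, -⟩, hl'⟩ he'
      have hz : ∀ t : Fin (r + 1) → Fin K × Fin s, PosC_n p t 0 = 0 := by
        intro t
        unfold PosC_n
        simp
      have hlast : ∀ t : Fin (r + 1) → Fin K × Fin s, Bal p t → PosC_n p t (r + 1) = 0 := by
        intro t ht
        unfold PosC_n
        have h1 : Finset.univ.filter (fun i : Fin (r + 1) => (i : ℕ) < r + 1) = Finset.univ :=
          Finset.filter_true_of_mem fun i _ => i.isLt
        rw [h1, ← ht]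
        exact Finset.sum_congr rfl fun i _ => by rw [PosC_sg_pow]
      have hn : ∀ j, j ≤ r + 1 → PosC_n p t j = PosC_n p t' j := by
        intro j hj
        rcases Nat.eq_zero_or_pos j with h0 | h0
        · rw [h0, hz, hz]
        · rcases Nat.lt_or_ge j (r + 1) with h1 | h1
          · have h2 := congrFun he' ⟨j - 1, by omega⟩
            simp only at h2
            have h3 : j - 1 + 1 = j := by omega
            rw [h3] at h2
            exact h2
          · have h2 : j = r + 1 := by omega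
            rw [h2, hlast t hb, hlast t' hb']
      funext j
      have h1 := PosC_n_succ p t j
      have h2 := PosC_n_succ p t' j
      rw [hn _ (by omega), hn (j : ℕ) (by omega), h2] at h1
      have h3 : PosC_sg p j * (((t j).1 : ℕ) : ℤ) = PosC_sg p j * (((t' j).1 : ℕ) : ℤ) := by
        linarith
      have hne : PosC_sg p (j : ℕ) ≠ 0 := by
        intro h
        have := PosC_sg_abs p (j : ℕ)
        rw [h] at this
        simp at this
      have h4 := mul_left_cancel₀ hne h3
      refine Prod.ext (Fin.ext (by exact_mod_cast h4)) ?_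
      have h5 := congrFun hl j
      have h6 := congrFun hl' j
      rw [h5, h6]
    · -- finiteness
      refine Set.Finite.subset (Set.Finite.pi' (t := fun _ : Fin r =>
        Set.Icc (-(((r + 1) * K : ℕ) : ℤ)) (((r + 1) * K : ℕ) : ℤ))
        (fun _ => Set.finite_Icc _ _)) ?_
      rintro n ⟨hn, -⟩ j
      exact abs_le.mp (hn j)
  have hSf : S.Finite := Set.toFinite S
  rw [Set.ncard_eq_toFinset_card S hSf]
  have hmain := Finset.card_le_mul_card_image (s := hSf.toFinset)
    (f := fun t : Fin (r + 1) → Fin K × Fin s => fun i => (t i).2)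
    (C1 * ((r + 1) * K) ^ (r / 2)) (by
      intro l _
      have h1 := hfib l
      rw [Set.ncard_eq_toFinset_card _ (Set.toFinite _)] at h1
      refine le_trans (Finset.card_le_card ?_) h1
      intro t ht
      rw [Finset.mem_filter, Set.Finite.mem_toFinset] at ht
      rw [Set.Finite.mem_toFinset]
      exact ht)
  refine hmain.trans ?_
  have himg : (hSf.toFinset.image
      (fun t : Fin (r + 1) → Fin K × Fin s => fun i => (t i).2)).card ≤ s ^ (r + 1) := by
    refine (Finset.card_le_univ _).trans ?_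
    rw [Fintype.card_fun, Fintype.card_fin, Fintype.card_fin]
  refine (Nat.mul_le_mul_left _ himg).trans (le_of_eq ?_)
  rw [mul_pow, Nat.add_sub_cancel]
  ring

end Pool.Agent.H74.GC
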