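import Mathlib
import Pool.Agent.H74.GC.Idn

/-!
Module ZerC (a zero coordinate, cut at `0`).

Paper proof (complete). Let `x 0 > 0 = x (q-1)` and let `L ≥ 1` be the least index with `x L = 0`
(`L ≤ q - 1`). If `L = 1` there is no `t` at all: `idn_part` with `L = 1` says `cc 0 * x 0 = x 0 = 0`. Let
`L ≥ 2`. Map `t` to `(t 1, .., t (q-2))` and the second component of `t (q-1)`. This map is injective on
the set: let `t`, `t'` have the same image. `idn_part` (with this `L`) says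
`x 0 - rat p Z t 0 * Ξ = 0`, where `Ξ = ∑_{1 ≤ j < L} (-1)^(j-1) (∏_{1 ≤ i < j} rat p Z t i) x j` only
depends on `t 1, .., t (L-2)`, hence is the same for `t'`; as `x 0 ≠ 0`, `rat p Z t 0 = rat p Z t' 0`, so
`Z (t 0) = Z (t' 0)` and `t 0 = t' 0` (`Zf ζ` is injective: `1 ≤ ζ l < 2`, so `2^a ζ l` determines `a`, then
`ζ l`). Finally the balance determines the first component of `t (q-1)`. The image lies in a set with
`(K s)^(q-2) * s` elements.
-/

namespace Pool.Agent.H74.GC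

theorem Zf_injective {q K s : ℕ} (hq : 2 ≤ q) (ζ : Fin s → ℝ) (hζ : Sml q ζ) :
    Function.Injective (Zf ζ : Fin K × Fin s → ℝ) := by
  have hlt : ∀ l, ζ l < 2 := fun l => by
    have h1 := (hζ.2 l).2
    have h2 : (1 : ℝ) / (16 * q) ≤ 1 / 32 := by
      have : (2 : ℝ) ≤ q := by exact_mod_cast hq
      apply one_div_le_one_div_of_le <;> linarith
    linarith
  have key : ∀ (a a' : ℕ) (l l' : Fin s), a < a' → (2 : ℝ) ^ a * ζ l < 2 ^ a' * ζ l' := by
    intro a a' l l' h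
    have h1 : (2 : ℝ) ^ (a + 1) ≤ 2 ^ a' := pow_le_pow_right₀ (by norm_num) h
    have h2 : (0 : ℝ) < 2 ^ a := by positivity
    have h5 : (0 : ℝ) < 2 ^ a' := by positivity
    have h3 := hlt l
    have h4 := (hζ.2 l').1
    calc (2 : ℝ) ^ a * ζ l < 2 ^ a * 2 := mul_lt_mul_of_pos_left h3 h2
      _ = 2 ^ (a + 1) := by ring
      _ ≤ 2 ^ a' := h1
      _ ≤ 2 ^ a' * ζ l' := le_mul_of_one_le_right h5.le h4
  rintro ⟨a, l⟩ ⟨a', l'⟩ h
  simp only [Zf] at h
  rcases lt_trichotomy (a : ℕ) (a' : ℕ) with h1 | h1 | h1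
  · exact absurd h (key _ _ l l' h1).ne
  · have h2 : a = a' := Fin.ext h1
    subst h2
    have h3 : ζ l = ζ l' := by
      have h4 : (2 : ℝ) ^ (a : ℕ) ≠ 0 := by positivity
      exact mul_left_cancel₀ h4 h
    rw [hζ.1 h3]
  · exact absurd h.symm (key _ _ l' l h1).ne

private theorem ZerC_split {q K s : ℕ} (hq : 2 ≤ q) (p : ℕ) (Z : Fin K × Fin s → ℝ)
    (t : Fin q → Fin K × Fin s) (x : Fin q → ℝ) (L : Fin q) (hL : 1 ≤ (L : ℕ)) :
    ∑ j ∈ Finset.univ.filter (fun j : Fin q => (j : ℕ) < L),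
      (-1 : ℝ) ^ (j : ℕ) * (cc p Z t j * x j) =
    x ⟨0, by omega⟩ + rat p Z t ⟨0, by omega⟩ *
      ∑ j ∈ Finset.univ.filter (fun j : Fin q => 1 ≤ (j : ℕ) ∧ (j : ℕ) < L),
        (-1 : ℝ) ^ (j : ℕ) * ((∏ i ∈ Finset.univ.filter
          (fun i : Fin q => 1 ≤ (i : ℕ) ∧ (i : ℕ) < j), rat p Z t i) * x j) := by
  have h1 : Finset.univ.filter (fun j : Fin q => (j : ℕ) < L) =
      insert (⟨0, by omega⟩ : Fin q)
        (Finset.univ.filter (fun j : Fin q => 1 ≤ (j : ℕ) ∧ (j : ℕ) < L)) := by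
    ext j
    simp only [Finset.mem_filter, Finset.mem_univ, true_and, Finset.mem_insert, Fin.ext_iff]
    omega
  rw [h1, Finset.sum_insert (by simp)]
  congr 1
  · simp [cc_zero]
  · rw [Finset.mul_sum]
    refine Finset.sum_congr rfl fun j hj => ?_
    obtain ⟨hj1, hj2⟩ := (Finset.mem_filter.1 hj).2
    have h2 : Finset.univ.filter (fun i : Fin q => (i : ℕ) < j) =
        insert (⟨0, by omega⟩ : Fin q)
          (Finset.univ.filter (fun i : Fin q => 1 ≤ (i : ℕ) ∧ (i : ℕ) < j)) := by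
      ext i
      simp only [Finset.mem_filter, Finset.mem_univ, true_and, Finset.mem_insert, Fin.ext_iff]
      omega
    rw [cc, h2, Finset.prod_insert (by simp)]
    ring

private theorem ZerC_rat {q K s : ℕ} (p : ℕ) (Z : Fin K × Fin s → ℝ)
    (t t' : Fin q → Fin K × Fin s) (i : Fin q) (h : rat p Z t i = rat p Z t' i) :
    Z (t i) = Z (t' i) := by
  unfold rat at h
  split_ifs at h with h1
  · exact h
  · exact inv_injective h

theorem card_zero_cut {q K s : ℕ} (hq : 2 ≤ q) (p : ℕ) (ζ : Fin s → ℝ) (hζ : Sml q ζ)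
    (x : Fin q → ℝ) (hx : ∀ i, 0 ≤ x i) (h0 : 0 < x ⟨0, by omega⟩)
    (h1 : x ⟨q - 1, by omega⟩ = 0) :
    {t : Fin q → Fin K × Fin s | Bal p t ∧ Hit p (Zf ζ) x t}.ncard ≤
      K ^ (q - 2) * s ^ (q - 1) := by
  classical
  have hZ : ∀ b : Fin K × Fin s, 0 < Zf ζ b := fun b =>
    mul_pos (by positivity) (lt_of_lt_of_le one_pos (hζ.2 b.2).1)
  let Φ : (Fin q → Fin K × Fin s) → (Fin (q - 2) → Fin K × Fin s) × Fin s := fun t =>
    (fun i => t ⟨(i : ℕ) + 1, by have := i.2; omega⟩, (t ⟨q - 1, by omega⟩).2)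
  have hinj : Set.InjOn Φ {t : Fin q → Fin K × Fin s | Bal p t ∧ Hit p (Zf ζ) x t} := by
    intro t ht t' ht' he
    obtain ⟨hb, hh⟩ := ht
    obtain ⟨hb', hh'⟩ := ht'
    have e1 : ∀ i : Fin q, 1 ≤ (i : ℕ) → (i : ℕ) < q - 1 → t i = t' i := by
      intro i hi1 hi2
      have h2 := congrFun (congrArg Prod.fst he) ⟨(i : ℕ) - 1, by omega⟩
      simp only [Φ] at h2
      have h3 : (⟨(i : ℕ) - 1 + 1, by omega⟩ : Fin q) = i := Fin.ext (by simp; omega)
      rwa [h3] at h2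
    have e2 : (t ⟨q - 1, by omega⟩).2 = (t' ⟨q - 1, by omega⟩).2 := by
      have h2 : (Φ t).2 = (Φ t').2 := by rw [he]
      exact h2
    -- the first component
    have s1 := idn_part hq p (Zf ζ) hZ x t hh h1 ⟨q - 1, by omega⟩ (by simp; omega) h1
    have s2 := idn_part hq p (Zf ζ) hZ x t' hh' h1 ⟨q - 1, by omega⟩ (by simp; omega) h1
    rw [ZerC_split hq p _ _ _ _ (by simp; omega)] at s1 s2
    have s3 : ∑ j ∈ Finset.univ.filter (fun j : Fin q => 1 ≤ (j : ℕ) ∧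
          (j : ℕ) < ((⟨q - 1, by omega⟩ : Fin q) : ℕ)),
        (-1 : ℝ) ^ (j : ℕ) * ((∏ i ∈ Finset.univ.filter
          (fun i : Fin q => 1 ≤ (i : ℕ) ∧ (i : ℕ) < j), rat p (Zf ζ) t' i) * x j) =
        ∑ j ∈ Finset.univ.filter (fun j : Fin q => 1 ≤ (j : ℕ) ∧
          (j : ℕ) < ((⟨q - 1, by omega⟩ : Fin q) : ℕ)),
        (-1 : ℝ) ^ (j : ℕ) * ((∏ i ∈ Finset.univ.filter
          (fun i : Fin q => 1 ≤ (i : ℕ) ∧ (i : ℕ) < j), rat p (Zf ζ) t i) * x j) := by
      refine Finset.sum_congr rfl fun j hj => ?_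
      have hj2 := (Finset.mem_filter.1 hj).2
      simp only at hj2
      congr 2
      refine Finset.prod_congr rfl fun i hi => ?_
      have hi2 := (Finset.mem_filter.1 hi).2
      unfold rat
      rw [e1 i hi2.1 (by omega)]
    rw [s3] at s2
    generalize (∑ j ∈ Finset.univ.filter (fun j : Fin q => 1 ≤ (j : ℕ) ∧
          (j : ℕ) < ((⟨q - 1, by omega⟩ : Fin q) : ℕ)),
        (-1 : ℝ) ^ (j : ℕ) * ((∏ i ∈ Finset.univ.filter
          (fun i : Fin q => 1 ≤ (i : ℕ) ∧ (i : ℕ) < j), rat p (Zf ζ) t i) * x j)) = Ξ at s1 s2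
    have hΞ : Ξ ≠ 0 := by
      rintro rfl
      rw [mul_zero, add_zero] at s1
      exact h0.ne' s1
    have e3 : rat p (Zf ζ) t ⟨0, by omega⟩ = rat p (Zf ζ) t' ⟨0, by omega⟩ := by
      have s4 : rat p (Zf ζ) t ⟨0, by omega⟩ * Ξ = rat p (Zf ζ) t' ⟨0, by omega⟩ * Ξ := by
        linarith
      exact mul_right_cancel₀ hΞ s4
    have e4 : t ⟨0, by omega⟩ = t' ⟨0, by omega⟩ :=
      Zf_injective hq ζ hζ (ZerC_rat p _ _ _ _ e3)
    have e5 : ∀ i : Fin q, i ≠ ⟨q - 1, by omega⟩ → t i = t' i := by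
      intro i hi
      by_cases hi0 : (i : ℕ) = 0
      · have : i = ⟨0, by omega⟩ := Fin.ext hi0
        rw [this]
        exact e4
      · refine e1 i (by omega) ?_
        have h3 : (i : ℕ) ≠ q - 1 := fun h => hi (Fin.ext h)
        have := i.2
        omega
    have e6 : (t ⟨q - 1, by omega⟩).1 = (t' ⟨q - 1, by omega⟩).1 := by
      unfold Bal at hb hb'
      rw [← Finset.add_sum_erase _ _ (Finset.mem_univ (⟨q - 1, by omega⟩ : Fin q))] at hb hb'
      have h3 : ∑ i ∈ Finset.univ.erase (⟨q - 1, by omega⟩ : Fin q),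
          (-1 : ℤ) ^ (p + (i : ℕ)) * (((t i).1 : ℕ) : ℤ) =
          ∑ i ∈ Finset.univ.erase (⟨q - 1, by omega⟩ : Fin q),
          (-1 : ℤ) ^ (p + (i : ℕ)) * (((t' i).1 : ℕ) : ℤ) :=
        Finset.sum_congr rfl fun i hi => by rw [e5 i (Finset.ne_of_mem_erase hi)]
      rw [h3] at hb
      have h4 : (-1 : ℤ) ^ (p + ((⟨q - 1, by omega⟩ : Fin q) : ℕ)) *
          (((t ⟨q - 1, by omega⟩).1 : ℕ) : ℤ) =
          (-1 : ℤ) ^ (p + ((⟨q - 1, by omega⟩ : Fin q) : ℕ)) *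
          (((t' ⟨q - 1, by omega⟩).1 : ℕ) : ℤ) := by linarith
      have h5 := mul_left_cancel₀ (pow_ne_zero _ (by norm_num : (-1 : ℤ) ≠ 0)) h4
      exact Fin.ext (by exact_mod_cast h5)
    funext i
    by_cases hi : i = ⟨q - 1, by omega⟩
    · rw [hi]
      exact Prod.ext e6 e2
    · exact e5 i hi
  calc {t : Fin q → Fin K × Fin s | Bal p t ∧ Hit p (Zf ζ) x t}.ncard =
        (Φ '' {t : Fin q → Fin K × Fin s | Bal p t ∧ Hit p (Zf ζ) x t}).ncard :=
        (hinj.ncard_image).symm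
    _ ≤ (Set.univ : Set ((Fin (q - 2) → Fin K × Fin s) × Fin s)).ncard :=
        Set.ncard_le_ncard (Set.subset_univ _) (Set.toFinite _)
    _ = K ^ (q - 2) * s ^ (q - 1) := by
        rw [Set.ncard_univ, Nat.card_eq_fintype_card]
        simp only [Fintype.card_prod, Fintype.card_fun, Fintype.card_fin]
        obtain ⟨r, rfl⟩ : ∃ r, q = r + 2 := ⟨q - 2, by omega⟩
        have h3 : r + 2 - 2 = r := by omega
        have h4 : r + 2 - 1 = r + 1 := by omega
        rw [h3, h4, mul_pow, pow_succ]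
        ring

end Pool.Agent.H74.GC
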