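import Mathlib
import Pool.Agent.H74.GC.PosC
import Pool.Agent.H74.GC.ZerC

/-!
Module HitC (all points).

Paper proof (complete). Let `C1` be the constant of `card_pos_cut q`, `C = q * C1 + 1`.
If all `x i > 0`: by `good_cut` the set is covered by the `q` sets
`{t | rot k t ∈ (set of card_pos_cut for p = k, rot k x)}` (`hit_rot`, `bal_rot` with `p = 0`), and
`rot k` is injective: at most `q * C1 * (K^((q-1)/2) s^q)` elements.
If some `x i = 0`: as `x ≠ 0` and `x ≥ 0` there is `k : Fin q` with `x k > 0` and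
`x ((k + q - 1) % q) = 0` (go around the cycle). Then `rot k x 0 > 0`, `rot k x (q-1) = 0`, and the set is
mapped injectively by `rot k` into the set of `card_zero_cut` (`p = k`).
-/

namespace Pool.Agent.H74.GC

private theorem HitC_cut {q : ℕ} (hq : 2 ≤ q) (x : Fin q → ℝ) (hx : ∀ i, 0 ≤ x i) (hne : x ≠ 0)
    (i1 : Fin q) (h1 : x i1 = 0) :
    ∃ k : Fin q, 0 < x k ∧ x ⟨((k : ℕ) + (q - 1)) % q, Nat.mod_lt _ (by omega)⟩ = 0 := by
  obtain ⟨i0, hi0⟩ : ∃ i0, x i0 ≠ 0 := by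
    by_contra h
    push Not at h
    exact hne (funext h)
  have hp0 : 0 < x i0 := lt_of_le_of_ne (hx i0) (Ne.symm hi0)
  by_contra h
  push Not at h
  have key : ∀ m : ℕ, 0 < x ⟨((i0 : ℕ) + m * (q - 1)) % q, Nat.mod_lt _ (by omega)⟩ := by
    intro m
    induction m with
    | zero =>
      have e : (⟨((i0 : ℕ) + 0 * (q - 1)) % q, Nat.mod_lt _ (by omega)⟩ : Fin q) = i0 := by
        apply Fin.ext
        change ((i0 : ℕ) + 0 * (q - 1)) % q = i0
        rw [zero_mul, add_zero, Nat.mod_eq_of_lt i0.isLt]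
      rw [e]
      exact hp0
    | succ m ih =>
      have h2 := h _ ih
      have e : (⟨((i0 : ℕ) + (m + 1) * (q - 1)) % q, Nat.mod_lt _ (by omega)⟩ : Fin q) =
          ⟨(((i0 : ℕ) + m * (q - 1)) % q + (q - 1)) % q, Nat.mod_lt _ (by omega)⟩ := by
        apply Fin.ext
        change ((i0 : ℕ) + (m + 1) * (q - 1)) % q =
          (((i0 : ℕ) + m * (q - 1)) % q + (q - 1)) % q
        rw [Nat.mod_add_mod, add_assoc, add_one_mul]
      rw [e]
      exact lt_of_le_of_ne (hx _) (Ne.symm h2)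
  obtain ⟨d, hd⟩ : ∃ d, q = (i1 : ℕ) + 1 + d := ⟨q - (i1 + 1), by omega⟩
  have h3 := key ((i0 : ℕ) + 1 + d)
  have e : (⟨((i0 : ℕ) + ((i0 : ℕ) + 1 + d) * (q - 1)) % q, Nat.mod_lt _ (by omega)⟩ : Fin q) = i1 := by
    apply Fin.ext
    change ((i0 : ℕ) + ((i0 : ℕ) + 1 + d) * (q - 1)) % q = i1
    have e2 : (i0 : ℕ) + ((i0 : ℕ) + 1 + d) * (q - 1) = (i1 : ℕ) + q * ((i0 : ℕ) + d) := by
      have e3 : q - 1 = (i1 : ℕ) + d := by omega
      rw [e3]
      generalize (i0 : ℕ) = u at *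
      generalize (i1 : ℕ) = v at *
      subst hd
      ring
    rw [e2, Nat.add_mul_mod_self_left, Nat.mod_eq_of_lt i1.isLt]
  rw [e, h1] at h3
  exact lt_irrefl _ h3

theorem card_hit (q : ℕ) (hq : 2 ≤ q) (he : q % 2 = 0) :
    ∃ C : ℕ, ∀ (K s : ℕ) (ζ : Fin s → ℝ) (x : Fin q → ℝ), 1 ≤ K → Sml q ζ →
      (∀ i, 0 ≤ x i) → x ≠ 0 →
      {t : Fin q → Fin K × Fin s | Bal 0 t ∧ Hit 0 (Zf ζ) x t}.ncard ≤
        C * (K ^ ((q - 1) / 2) * s ^ q + K ^ (q - 2) * s ^ (q - 1)) := by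
  obtain ⟨C1, hC1⟩ := card_pos_cut q hq he
  refine ⟨q * C1 + 1, ?_⟩
  intro K s ζ x hK hζ hx hne
  by_cases hp : ∀ i, 0 < x i
  · let T : Fin q → Set (Fin q → Fin K × Fin s) := fun k =>
      {t | Bal (k : ℕ) t ∧ Hit (k : ℕ) (Zf ζ) (rot (k : ℕ) x) t ∧
        ∀ j : Fin q, (9 / 10) * rot (k : ℕ) x ⟨0, by omega⟩ ≤
          cc (k : ℕ) (Zf ζ) t j * rot (k : ℕ) x j}
    have hT : ∀ k, (T k).ncard ≤ C1 * (K ^ ((q - 1) / 2) * s ^ q) := fun k =>
      hC1 K s k ζ (rot (k : ℕ) x) hK hζ (fun i => hp _)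
    let S : Fin q → Set (Fin q → Fin K × Fin s) := fun k => {t | rot (k : ℕ) t ∈ T k}
    have hS : ∀ k, (S k).ncard ≤ (T k).ncard := fun k =>
      Set.ncard_le_ncard_of_injOn (rot (k : ℕ)) (fun _ ht => ht)
        (rot_injective (k : ℕ)).injOn (Set.toFinite _)
    have hsub : {t : Fin q → Fin K × Fin s | Bal 0 t ∧ Hit 0 (Zf ζ) x t} ⊆ ⋃ k, S k := by
      rintro t ⟨hb, hh⟩
      obtain ⟨k, hk⟩ := good_cut hq he ζ hζ x hp t hb
      refine Set.mem_iUnion.2 ⟨k, ?_, ?_, hk⟩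
      · have h := bal_rot he 0 k t hb
        rwa [zero_add] at h
      · have h := hit_rot he 0 k (Zf ζ) x t hh
        rwa [zero_add] at h
    have h1 : {t : Fin q → Fin K × Fin s | Bal 0 t ∧ Hit 0 (Zf ζ) x t}.ncard ≤
        ∑ k, (S k).ncard :=
      le_trans (Set.ncard_le_ncard hsub (Set.toFinite _)) (Set.ncard_iUnion_le_of_fintype S)
    have h2 : ∑ k : Fin q, (S k).ncard ≤ ∑ _k : Fin q, C1 * (K ^ ((q - 1) / 2) * s ^ q) :=
      Finset.sum_le_sum fun k _ => le_trans (hS k) (hT k)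
    rw [Finset.sum_const, Finset.card_univ, Fintype.card_fin, smul_eq_mul, ← mul_assoc] at h2
    refine le_trans h1 (le_trans h2 ?_)
    exact Nat.mul_le_mul (Nat.le_succ _) (Nat.le_add_right _ _)
  · push Not at hp
    obtain ⟨i1, hi1⟩ := hp
    have hz : x i1 = 0 := le_antisymm hi1 (hx i1)
    obtain ⟨k, hk0, hk1⟩ := HitC_cut hq x hx hne i1 hz
    have h0 : 0 < rot (k : ℕ) x ⟨0, by omega⟩ := by
      have e : (⟨((k : ℕ) + 0) % q, Nat.mod_lt _ (by omega)⟩ : Fin q) = k := by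
        apply Fin.ext
        change ((k : ℕ) + 0) % q = k
        rw [add_zero, Nat.mod_eq_of_lt k.isLt]
      change 0 < x ⟨((k : ℕ) + 0) % q, Nat.mod_lt _ (by omega)⟩
      rw [e]
      exact hk0
    have h1 : rot (k : ℕ) x ⟨q - 1, by omega⟩ = 0 := hk1
    have h2 := card_zero_cut (K := K) hq (k : ℕ) ζ hζ (rot (k : ℕ) x) (fun i => hx _) h0 h1
    have h3 : {t : Fin q → Fin K × Fin s | Bal 0 t ∧ Hit 0 (Zf ζ) x t}.ncard ≤
        {t : Fin q → Fin K × Fin s | Bal (k : ℕ) t ∧ Hit (k : ℕ) (Zf ζ) (rot (k : ℕ) x) t}.ncard := by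
      refine Set.ncard_le_ncard_of_injOn (rot (k : ℕ)) ?_ (rot_injective (k : ℕ)).injOn
        (Set.toFinite _)
      rintro t ⟨hb, hh⟩
      constructor
      · have h := bal_rot he 0 k t hb
        rwa [zero_add] at h
      · have h := hit_rot he 0 k (Zf ζ) x t hh
        rwa [zero_add] at h
    refine le_trans h3 (le_trans h2 ?_)
    rw [← one_mul (K ^ (q - 2) * s ^ (q - 1))]
    exact Nat.mul_le_mul (Nat.succ_le_succ (Nat.zero_le _)) (by rw [one_mul]; exact Nat.le_add_left _ _)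

end Pool.Agent.H74.GC
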