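import Mathlib
import Pool.Agent.H74.GC.Dfs

/-!
Module Pts (the points in `ℝ^d`).

Paper proof (complete). `bary` is affine in `x` and its coordinates sum to `1`. For `u` with
`∑ u = 1`, `bary (pnt u) = u`; the numbers `bc Z i` are nonnegative with sum
`(wA + wB) / (Z + 1) = 1` (`wA 0 i z + wB 0 i z = z + 1`). So if
`x = ∑ i, w i • vp Z (i, t i)` is a convex combination (`Finset.univ.image`: use
`mem_convexHull_image` / `convexHull_range_eq_exists_affineCombination` or `Finset.centerMass`; the set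
`vp Z '' eg t` is the range of `fun i => vp Z (i, t i)`), then `bary x = ∑ i, w i • bc Z (i, t i)`. With
`y i = w i / (Z (t i) + 1) ≥ 0` the coordinate `m = nxt i` of this is
`wA 0 m (Z (t m)) * y m + wB 0 i (Z (t i)) * y i` (`nxt` is injective; only the terms of the points `m`
and `i` have a nonzero coordinate `m`; if `q = d + 1 = 1` this is also true, but we assume `1 ≤ d`).
`bary x ≠ 0` because the sum of its coordinates is `1`.
-/

namespace Pool.Agent.H74.GC

open Pool.Agent.H68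

theorem sum_bary {d : ℕ} (x : Pt d) : ∑ i, bary x i = 1 := by
  unfold bary
  rw [Fin.sum_univ_castSucc]
  simp only [Fin.snoc_castSucc, Fin.snoc_last]
  ring

private theorem Pts_nxt_inj {q : ℕ} {i k : Fin q} (h : nxt i = nxt k) : i = k := by
  have h1 : ((i : ℕ) + 1) % q = ((k : ℕ) + 1) % q := by
    have := congrArg Fin.val h
    simpa [nxt] using this
  have h2 : (i : ℕ) ≡ (k : ℕ) [MOD q] := Nat.ModEq.add_right_cancel' 1 h1
  have h3 : (i : ℕ) % q = (k : ℕ) % q := h2
  rw [Nat.mod_eq_of_lt i.isLt, Nat.mod_eq_of_lt k.isLt] at h3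
  exact Fin.ext h3

private theorem Pts_wAB (i : ℕ) (z : ℝ) : wA 0 i z + wB 0 i z = z + 1 := by
  unfold wA wB
  split_ifs <;> ring

private theorem Pts_wA_nonneg (i : ℕ) {z : ℝ} (hz : 0 < z) : 0 ≤ wA 0 i z := by
  unfold wA
  split_ifs
  · exact hz.le
  · exact zero_le_one

private theorem Pts_wB_nonneg (i : ℕ) {z : ℝ} (hz : 0 < z) : 0 ≤ wB 0 i z := by
  unfold wB
  split_ifs
  · exact zero_le_one
  · exact hz.le

private theorem Pts_bc_nonneg {d K s : ℕ} (Z : Fin K × Fin s → ℝ) (hZ : ∀ b, 0 < Z b)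
    (i : Fin (d + 1) × (Fin K × Fin s)) (m : Fin (d + 1)) : 0 ≤ bc Z i m := by
  unfold bc
  have h1 := Pts_wA_nonneg (i.1 : ℕ) (hZ i.2)
  have h2 := Pts_wB_nonneg (i.1 : ℕ) (hZ i.2)
  have h3 : 0 < Z i.2 + 1 := by linarith [hZ i.2]
  refine add_nonneg ?_ ?_
  · split_ifs
    · positivity
    · exact le_refl 0
  · split_ifs
    · positivity
    · exact le_refl 0

private theorem Pts_bc_sum {d K s : ℕ} (Z : Fin K × Fin s → ℝ) (hZ : ∀ b, 0 < Z b)
    (i : Fin (d + 1) × (Fin K × Fin s)) : ∑ m, bc Z i m = 1 := by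
  unfold bc
  rw [Finset.sum_add_distrib, Finset.sum_ite_eq' , Finset.sum_ite_eq']
  simp only [Finset.mem_univ, if_true]
  have h3 : 0 < Z i.2 + 1 := by linarith [hZ i.2]
  rw [← add_div, Pts_wAB, div_self h3.ne']

private theorem Pts_hull {d K s : ℕ} (Z : Fin K × Fin s → ℝ)
    (t : Fin (d + 1) → Fin K × Fin s) (x : Pt d)
    (hx : x ∈ convexHull ℝ (vp Z '' (eg t : Set (Fin (d + 1) × (Fin K × Fin s))))) :
    ∃ w : Fin (d + 1) → ℝ, (∀ i, 0 ≤ w i) ∧ ∑ i, w i = 1 ∧
      x = ∑ i, w i • vp Z (i, t i) := by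
  have key : convexHull ℝ (vp Z '' (eg t : Set (Fin (d + 1) × (Fin K × Fin s)))) ⊆
      {x : Pt d | ∃ w : Fin (d + 1) → ℝ, (∀ i, 0 ≤ w i) ∧ ∑ i, w i = 1 ∧
        x = ∑ i, w i • vp Z (i, t i)} := by
    refine convexHull_min ?_ ?_
    · rintro _ ⟨b, hb, rfl⟩
      have hb' : b ∈ eg t := hb
      unfold eg at hb'
      rw [Finset.mem_image] at hb'
      obtain ⟨i, _, rfl⟩ := hb'
      refine ⟨Pi.single i 1, ?_, ?_, ?_⟩
      · intro j
        rw [Pi.single_apply]
        split_ifs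
        · exact zero_le_one
        · exact le_refl 0
      · simp
      · rw [Finset.sum_eq_single i]
        · simp
        · intro j _ hj
          rw [Pi.single_eq_of_ne hj, zero_smul]
        · intro h
          exact absurd (Finset.mem_univ i) h
    · rintro x ⟨w, hw0, hw1, hw⟩ y ⟨v, hv0, hv1, hv⟩ a b ha hb hab
      refine ⟨fun i => a * w i + b * v i, ?_, ?_, ?_⟩
      · intro i
        have := hw0 i
        have := hv0 i
        positivity
      · rw [Finset.sum_add_distrib, ← Finset.mul_sum, ← Finset.mul_sum, hw1, hv1]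
        linarith
      · rw [hw, hv, Finset.smul_sum, Finset.smul_sum, ← Finset.sum_add_distrib]
        refine Finset.sum_congr rfl fun i _ => ?_
        rw [add_smul, mul_smul, mul_smul]
  exact key hx

private theorem Pts_coord {d : ℕ} (u : Fin (d + 1) → ℝ) (j : Fin d) :
    (pnt u : Pt d) j = u j.castSucc := rfl

private theorem Pts_bary {d K s : ℕ} (Z : Fin K × Fin s → ℝ) (hZ : ∀ b, 0 < Z b)
    (t : Fin (d + 1) → Fin K × Fin s) (w : Fin (d + 1) → ℝ) (hw : ∑ i, w i = 1)
    (m : Fin (d + 1)) :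
    bary (∑ i, w i • vp Z (i, t i) : Pt d) m = ∑ i, w i * bc Z (i, t i) m := by
  have h1 : ∀ j : Fin d, (∑ i, w i • vp Z (i, t i) : Pt d) j =
      ∑ i, w i * bc Z (i, t i) j.castSucc := by
    intro j
    rw [WithLp.ofLp_sum, Finset.sum_apply]
    rfl
  refine Fin.lastCases ?_ (fun j => ?_) m
  · unfold bary
    rw [Fin.snoc_last]
    have h2 : ∀ i, bc Z (i, t i) (Fin.last d) = 1 - ∑ j : Fin d, bc Z (i, t i) j.castSucc := by
      intro i
      have h3 := Pts_bc_sum Z hZ (i, t i)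
      rw [Fin.sum_univ_castSucc] at h3
      linarith
    rw [Finset.sum_congr rfl fun j _ => h1 j, Finset.sum_comm]
    rw [← hw, ← Finset.sum_sub_distrib]
    refine Finset.sum_congr rfl fun i _ => ?_
    rw [h2 i, ← Finset.mul_sum]
    ring
  · unfold bary
    rw [Fin.snoc_castSucc]
    exact h1 j

theorem hit_of_mem {d K s : ℕ} (hd : 1 ≤ d) (Z : Fin K × Fin s → ℝ) (hZ : ∀ b, 0 < Z b)
    (t : Fin (d + 1) → Fin K × Fin s) (x : Pt d)
    (hx : x ∈ convexHull ℝ (vp Z '' (eg t : Set (Fin (d + 1) × (Fin K × Fin s))))) :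
    Hit 0 Z (bary x) t ∧ (∀ i, 0 ≤ bary x i) ∧ bary x ≠ 0 := by
  obtain ⟨w, hw0, hw1, hw⟩ := Pts_hull Z t x hx
  have hb : ∀ m, bary x m = ∑ i, w i * bc Z (i, t i) m := by
    intro m
    rw [hw]
    exact Pts_bary Z hZ t w hw1 m
  have hpos : ∀ i, 0 < Z (t i) + 1 := fun i => by linarith [hZ (t i)]
  refine ⟨⟨fun i => w i / (Z (t i) + 1), ?_, ?_⟩, ?_, ?_⟩
  · intro i
    exact div_nonneg (hw0 i) (hpos i).le
  · intro i
    rw [hb (nxt i)]
    have h1 : ∀ k, w k * bc Z (k, t k) (nxt i) =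
        (if nxt i = k then w k * (wA 0 k (Z (t k)) / (Z (t k) + 1)) else 0) +
        (if i = k then w k * (wB 0 k (Z (t k)) / (Z (t k) + 1)) else 0) := by
      intro k
      unfold bc
      have h2 : (nxt i = nxt k) ↔ (i = k) := ⟨Pts_nxt_inj, fun h => by rw [h]⟩
      simp only [h2]
      rw [mul_add, mul_ite, mul_ite, mul_zero]
    rw [Finset.sum_congr rfl fun k _ => h1 k, Finset.sum_add_distrib, Finset.sum_ite_eq,
      Finset.sum_ite_eq]
    simp only [Finset.mem_univ, if_true]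
    ring
  · intro m
    rw [hb m]
    exact Finset.sum_nonneg fun i _ => mul_nonneg (hw0 i) (Pts_bc_nonneg Z hZ _ m)
  · intro h0
    have h1 := sum_bary x
    rw [h0] at h1
    simp at h1

end Pool.Agent.H74.GC
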