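import Mathlib
import Pool.Agent.H74.GC.Dfs

/-!
Module Tup (number of balanced tuples).

Paper proof (complete). `q ≥ 2` even, `K = q * κ`. Let the first components of `t` be: `t 0` in
`[(q/2 - 1) κ, (q/2) κ)`, `t i` in `[0, κ)` for `1 ≤ i ≤ q - 2`, and the one of `t (q-1)` is
`∑_{i even} t i - ∑_{i odd, i < q-1} t i`, which is `≥ (q/2 - 1) κ - (q/2 - 1) κ = 0` and
`< (q/2) κ + (q/2 - 1) κ ≤ q κ` (there are `q/2 - 1` odd indices below `q - 1` and `q/2 - 1` even positive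
indices). So the map `(Fin (q-1) → Fin κ) × (Fin q → Fin s) → tuples` is well defined, injective, with
balanced values: `κ^(q-1) * s^q` balanced tuples.
`exists_sml`: `ζ l = 1 + l / (16 q s)`.
`eg_injective`, `eg_card`: clear (`eg t` is the graph of `t`).
-/

namespace Pool.Agent.H74.GC

private theorem Tup_bd (κ : ℕ) (a : ℕ → ℕ) (ha : ∀ i, a i < κ) (r : ℕ) :
    -((r : ℤ) * ((κ : ℤ) - 1)) ≤ ∑ i ∈ Finset.range (2 * r + 1), (-1 : ℤ) ^ i * (a i : ℤ) ∧
      ∑ i ∈ Finset.range (2 * r + 1), (-1 : ℤ) ^ i * (a i : ℤ) ≤ ((r : ℤ) + 1) * ((κ : ℤ) - 1) := by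
  induction r with
  | zero =>
    have h := ha 0
    simp
    omega
  | succ r ih =>
    have h1 := ha (2 * r + 1)
    have h2 := ha (2 * r + 2)
    have e1 : (-1 : ℤ) ^ (2 * r + 1) = -1 := Odd.neg_one_pow ⟨r, rfl⟩
    have e2 : (-1 : ℤ) ^ (2 * r + 1 + 1) = 1 := Even.neg_one_pow ⟨r + 1, by ring⟩
    have e3 : 2 * (r + 1) + 1 = 2 * r + 1 + 1 + 1 := by ring
    rw [e3, Finset.sum_range_succ, Finset.sum_range_succ, e1, e2]
    push_cast
    have h1' : (a (2 * r + 1) : ℤ) < κ := by exact_mod_cast h1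
    have h2' : (a (2 * r + 1 + 1) : ℤ) < κ := by exact_mod_cast h2
    have h3 : (0 : ℤ) ≤ a (2 * r + 1) := by positivity
    have h4 : (0 : ℤ) ≤ a (2 * r + 1 + 1) := by positivity
    constructor
    · linarith [ih.1]
    · linarith [ih.2]

/-- the alternating sum -/
private def Tup_S (r κ : ℕ) (a : Fin (2 * r + 1) → Fin κ) : ℤ :=
  (r : ℤ) * κ + ∑ i : Fin (2 * r + 1), (-1 : ℤ) ^ (i : ℕ) * ((a i : ℕ) : ℤ)

private theorem Tup_Sb (r κ : ℕ) (a : Fin (2 * r + 1) → Fin κ) :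
    0 ≤ Tup_S r κ a ∧ Tup_S r κ a < ((2 * r + 1 + 1) * κ : ℕ) := by
  have hκ : 0 < κ := (a 0).pos
  have hb := Tup_bd κ (fun i => if h : i < 2 * r + 1 then (a ⟨i, h⟩ : ℕ) else 0) (by
    intro i
    split_ifs with h
    · exact (a ⟨i, h⟩).2
    · exact hκ) r
  have e : ∑ i : Fin (2 * r + 1), (-1 : ℤ) ^ (i : ℕ) * ((a i : ℕ) : ℤ) =
      ∑ i ∈ Finset.range (2 * r + 1), (-1 : ℤ) ^ i *
        (((fun i => if h : i < 2 * r + 1 then (a ⟨i, h⟩ : ℕ) else 0) i : ℕ) : ℤ) := by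
    rw [Finset.sum_range]
    refine Finset.sum_congr rfl fun i _ => ?_
    simp [i.2]
  unfold Tup_S
  rw [e]
  obtain ⟨h1, h2⟩ := hb
  have hκ' : (1 : ℤ) ≤ κ := by exact_mod_cast hκ
  have hr : (0 : ℤ) ≤ r := by positivity
  push_cast
  constructor
  · nlinarith
  · nlinarith

private theorem Tup_lt (r κ : ℕ) (a : Fin (2 * r + 1) → Fin κ) (i : Fin (2 * r + 1)) :
    (if (i : ℕ) = 0 then r * κ else 0) + (a i : ℕ) < (2 * r + 1 + 1) * κ := by
  have h := (a i).2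
  have h2 : (2 * r + 1 + 1) * κ = r * κ + κ + (r * κ + κ) := by ring
  rw [h2]
  split_ifs <;> omega

/-- the tuple -/
private noncomputable def Tup_f (r κ s : ℕ)
    (x : (Fin (2 * r + 1) → Fin κ) × (Fin (2 * r + 1 + 1) → Fin s)) :
    Fin (2 * r + 1 + 1) → Fin ((2 * r + 1 + 1) * κ) × Fin s :=
  fun i => ((Fin.snoc (α := fun _ => Fin ((2 * r + 1 + 1) * κ))
    (fun i : Fin (2 * r + 1) => (⟨(if (i : ℕ) = 0 then r * κ else 0) + (x.1 i : ℕ),
      Tup_lt r κ x.1 i⟩ : Fin ((2 * r + 1 + 1) * κ)))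
    (⟨(Tup_S r κ x.1).toNat, by
      have h := Tup_Sb r κ x.1
      omega⟩ : Fin ((2 * r + 1 + 1) * κ)) : Fin (2 * r + 1 + 1) → _) i, x.2 i)

private theorem Tup_inj (r κ s : ℕ) : Function.Injective (Tup_f r κ s) := by
  rintro ⟨a, b⟩ ⟨a', b'⟩ h
  have hb : b = b' := by
    funext i
    have := congrArg Prod.snd (congrFun h i)
    exact this
  have ha : a = a' := by
    funext i
    have h1 := congrArg Prod.fst (congrFun h i.castSucc)
    simp only [Tup_f, Fin.snoc_castSucc, Fin.mk.injEq] at h1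
    exact Fin.ext (Nat.add_left_cancel h1)
  rw [ha, hb]

private theorem Tup_bal (r κ s : ℕ)
    (x : (Fin (2 * r + 1) → Fin κ) × (Fin (2 * r + 1 + 1) → Fin s)) :
    Bal 0 (Tup_f r κ s x) := by
  unfold Bal
  rw [Fin.sum_univ_castSucc]
  simp only [Tup_f, Fin.snoc_castSucc, Fin.snoc_last, Fin.val_castSucc, Fin.val_last, zero_add]
  rw [Int.toNat_of_nonneg (Tup_Sb r κ x.1).1]
  have e1 : (-1 : ℤ) ^ (2 * r + 1) = -1 := Odd.neg_one_pow ⟨r, rfl⟩
  rw [e1]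
  unfold Tup_S
  have e2 : ∑ i : Fin (2 * r + 1), (-1 : ℤ) ^ (i : ℕ) *
      (((if (i : ℕ) = 0 then r * κ else 0) + (x.1 i : ℕ) : ℕ) : ℤ) =
      (r : ℤ) * κ + ∑ i : Fin (2 * r + 1), (-1 : ℤ) ^ (i : ℕ) * ((x.1 i : ℕ) : ℤ) := by
    push_cast
    simp only [mul_add, Finset.sum_add_distrib]
    congr 1
    rw [Finset.sum_eq_single (0 : Fin (2 * r + 1))]
    · simp
    · intro i _ hi
      have : (i : ℕ) ≠ 0 := fun h => hi (Fin.ext h)
      simp [this]
    · intro h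
      exact absurd (Finset.mem_univ _) h
  rw [e2]
  ring

theorem card_bal (q κ s : ℕ) (hq : 2 ≤ q) (he : q % 2 = 0) :
    κ ^ (q - 1) * s ^ q ≤ {t : Fin q → Fin (q * κ) × Fin s | Bal 0 t}.ncard := by
  obtain ⟨r, rfl⟩ : ∃ r, q = 2 * r + 1 + 1 := ⟨(q - 2) / 2, by omega⟩
  have h1 : (Set.range (Tup_f r κ s)).ncard = κ ^ (2 * r + 1 + 1 - 1) * s ^ (2 * r + 1 + 1) := by
    rw [← Set.image_univ, Set.ncard_image_of_injective _ (Tup_inj r κ s), Set.ncard_univ,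
      Nat.card_eq_fintype_card]
    simp
  rw [← h1]
  refine Set.ncard_le_ncard ?_ (Set.toFinite _)
  rintro _ ⟨x, rfl⟩
  exact Tup_bal r κ s x

theorem exists_sml (q s : ℕ) (hq : 1 ≤ q) : ∃ ζ : Fin s → ℝ, Sml q ζ := by
  have hq' : (1 : ℝ) ≤ q := by exact_mod_cast hq
  have hs : (0 : ℝ) ≤ s := by positivity
  refine ⟨fun l => 1 + (l : ℕ) / (16 * q * (s + 1)), ?_, fun l => ⟨?_, ?_⟩⟩
  · intro l l' h
    have hp : (0 : ℝ) < 16 * q * (s + 1) := by positivity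
    have h1 : ((l : ℕ) : ℝ) / (16 * q * (s + 1)) = ((l' : ℕ) : ℝ) / (16 * q * (s + 1)) := by
      exact add_left_cancel h
    rw [div_left_inj' hp.ne'] at h1
    exact Fin.ext (by exact_mod_cast h1)
  · have : (0 : ℝ) ≤ ((l : ℕ) : ℝ) / (16 * q * (s + 1)) := by positivity
    linarith
  · have hl : ((l : ℕ) : ℝ) ≤ s + 1 := by
      have h3 : (l : ℕ) < s := l.2
      have h4 : ((l : ℕ) : ℝ) < s := by exact_mod_cast h3
      linarith
    have h5 : ((l : ℕ) : ℝ) / (16 * q * (s + 1)) ≤ 1 / (16 * q) := by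
      rw [div_le_div_iff₀ (by positivity) (by positivity)]
      nlinarith
    linarith

theorem eg_injective {q : ℕ} {β : Type*} [DecidableEq β] :
    Function.Injective (eg : (Fin q → β) → Finset (Fin q × β)) := by
  intro t t' h
  funext i
  have h1 : (i, t i) ∈ (eg t' : Finset (Fin q × β)) := by
    rw [← h]
    exact Finset.mem_image_of_mem _ (Finset.mem_univ i)
  obtain ⟨j, -, hj⟩ := Finset.mem_image.1 h1
  have h2 : j = i := congrArg Prod.fst hj
  have h3 : t' j = t i := congrArg Prod.snd hj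
  rw [h2] at h3
  exact h3.symm

theorem eg_card {q : ℕ} {β : Type*} [DecidableEq β] (t : Fin q → β) : (eg t).card = q := by
  unfold eg
  rw [Finset.card_image_of_injective]
  · simp
  · intro i j h
    exact congrArg Prod.fst h

end Pool.Agent.H74.GC
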