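import Mathlib
import Pool.Agent.H74.GB.Semi
import Pool.Agent.H74.GC.HitC
import Pool.Agent.H74.GC.Pts
import Pool.Agent.H74.GC.Tup

/-!
Module Cfg (the hypergraphs; model: Pool/Agent/H74/GB/Cfg.lean, the case `d = 3`).

Paper proof (complete). Let `d + 1 = q` be even, `K = q κ`, `C1` the constant of `card_hit q`,
`C = C1 * q^q`. Take `ζ` from `exists_sml`. The vertex type is `ι = Fin (d+1) × (Fin K × Fin s)` with
`q * q κ * s ≤ n` elements and points `vp (Zf ζ)`; fix an embedding `j : ι ↪ Fin n` and let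
`v : Fin n → Pt d` be `vp (Zf ζ)` on its range and `0` elsewhere (`Function.extend`). Let `F0` be the set of
all `(eg t).map j`, `t` balanced (`Bal 0 t`): by `card_bal`, `eg_injective` it has at least
`κ^(q-1) s^q ≥ m` members, all of cardinality `d + 1` (`eg_card`); let `F ⊆ F0`, `F.card = m`. For
`e = (eg t).map j`, `v '' e = vp (Zf ζ) '' (eg t)`; if `x` is in its convex hull then `hit_of_mem` says
`Hit 0 (Zf ζ) (bary x) t`, and `card_hit` bounds the number of such `t` (if there is one at all then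
`bary x` is nonnegative and nonzero) by
`C1 * (K^((q-1)/2) s^q + K^(q-2) s^(q-1)) ≤ C * (κ^((q-1)/2) s^q + κ^(q-2) s^(q-1))`. Apply
`Pool.Agent.H74.GB.exists_generic`. (`κ = 0`: then `m = 0` if `q ≥ 2`; or assume `1 ≤ κ`.)
-/

namespace Pool.Agent.H74.GC

open Pool.Agent.H68

private theorem Cfg_arith (C1 q κ s d : ℕ) (hq : 1 ≤ q) (hdq : d ≤ q) :
    C1 * ((q * κ) ^ (d / 2) * s ^ q + (q * κ) ^ (d - 1) * s ^ (q - 1)) ≤
      C1 * q ^ q * (κ ^ (d / 2) * s ^ q + κ ^ (d - 1) * s ^ (q - 1)) := by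
  have h1 : (q * κ) ^ (d / 2) ≤ q ^ q * κ ^ (d / 2) := by
    rw [mul_pow]
    exact Nat.mul_le_mul_right _ (Nat.pow_le_pow_right hq (le_trans (Nat.div_le_self d 2) hdq))
  have h2 : (q * κ) ^ (d - 1) ≤ q ^ q * κ ^ (d - 1) := by
    rw [mul_pow]
    exact Nat.mul_le_mul_right _ (Nat.pow_le_pow_right hq (le_trans (Nat.sub_le d 1) hdq))
  calc C1 * ((q * κ) ^ (d / 2) * s ^ q + (q * κ) ^ (d - 1) * s ^ (q - 1))
      ≤ C1 * (q ^ q * κ ^ (d / 2) * s ^ q + q ^ q * κ ^ (d - 1) * s ^ (q - 1)) :=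
        Nat.mul_le_mul_left _ (Nat.add_le_add (Nat.mul_le_mul_right _ h1)
          (Nat.mul_le_mul_right _ h2))
    _ = C1 * q ^ q * (κ ^ (d / 2) * s ^ q + κ ^ (d - 1) * s ^ (q - 1)) := by ring

private theorem Cfg_pos {q K s : ℕ} {ζ : Fin s → ℝ} (hζ : Sml q ζ) (b : Fin K × Fin s) :
    0 < Zf ζ b := by
  unfold Zf
  have h1 : 1 ≤ ζ b.2 := (hζ.2 b.2).1
  positivity

theorem exists_config (d : ℕ) (hd : 1 ≤ d) (he : (d + 1) % 2 = 0) :
    ∃ C : ℕ, ∀ n m κ s : ℕ, 1 ≤ κ → (d + 1) ^ 2 * κ * s ≤ n → m ≤ κ ^ d * s ^ (d + 1) →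
      ∃ G : GeomHyp d (d + 1), G.V.card = n ∧ G.E.card = m ∧
        ∀ L : AffineSubspace ℝ (Pt d), IsFlat 0 L →
          numMet G L ≤ C * (κ ^ (d / 2) * s ^ (d + 1) + κ ^ (d - 1) * s ^ d) := by
  classical
  obtain ⟨C1, hC1⟩ := card_hit (d + 1) (by omega) he
  refine ⟨C1 * (d + 1) ^ (d + 1), ?_⟩
  intro n m κ s hκ hn hm
  obtain ⟨ζ, hζ⟩ := exists_sml (d + 1) s (by omega)
  have hcard : Fintype.card (Fin (d + 1) × (Fin ((d + 1) * κ) × Fin s)) ≤
      Fintype.card (Fin n) := by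
    simp only [Fintype.card_prod, Fintype.card_fin]
    calc (d + 1) * ((d + 1) * κ * s) = (d + 1) ^ 2 * κ * s := by ring
      _ ≤ n := hn
  obtain ⟨j⟩ := Function.Embedding.nonempty_of_card_le hcard
  let v : Fin (d + 1) × (Fin ((d + 1) * κ) × Fin s) → Pt d := vp (Zf ζ)
  let v' : Fin n → Pt d := Function.extend j v (fun _ => 0)
  have hv' : ∀ y, v' (j y) = v y := fun y => j.injective.extend_apply v _ y
  have himg : ∀ e : Finset (Fin (d + 1) × (Fin ((d + 1) * κ) × Fin s)),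
      v' '' ((e.map j : Finset (Fin n)) : Set (Fin n)) =
        v '' (e : Set (Fin (d + 1) × (Fin ((d + 1) * κ) × Fin s))) := by
    intro e
    rw [Finset.coe_map, Set.image_image]
    exact Set.image_congr fun y _ => hv' y
  let T0 : Finset (Fin (d + 1) → Fin ((d + 1) * κ) × Fin s) :=
    Finset.univ.filter (fun t => Bal 0 t)
  have hT0 : κ ^ d * s ^ (d + 1) ≤ T0.card := by
    have h1 := card_bal (d + 1) κ s (by omega) he
    have h2 : {t : Fin (d + 1) → Fin ((d + 1) * κ) × Fin s | Bal 0 t} =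
        (T0 : Set (Fin (d + 1) → Fin ((d + 1) * κ) × Fin s)) := by
      ext t
      simp [T0]
    rw [h2, Set.ncard_coe_finset] at h1
    exact h1
  let F0 : Finset (Finset (Fin n)) := T0.image (fun t => (eg t).map j)
  have hF0 : m ≤ F0.card := by
    have h1 : F0.card = T0.card := by
      refine Finset.card_image_of_injective _ ?_
      intro t t' htt
      exact eg_injective (Finset.map_injective j htt)
    rw [h1]
    exact le_trans hm hT0
  obtain ⟨F, hFF, hFm⟩ := Finset.exists_subset_card_eq hF0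
  have hmem : ∀ e ∈ F, ∃ t : Fin (d + 1) → Fin ((d + 1) * κ) × Fin s,
      Bal 0 t ∧ (eg t).map j = e := by
    intro e he'
    obtain ⟨t, ht, hte⟩ := Finset.mem_image.1 (hFF he')
    exact ⟨t, (Finset.mem_filter.1 ht).2, hte⟩
  have hF : ∀ e ∈ F, e.card = d + 1 := by
    intro e he'
    obtain ⟨t, -, rfl⟩ := hmem e he'
    rw [Finset.card_map]
    exact eg_card t
  have hT : ∀ x : Pt d,
      {e : Finset (Fin n) | e ∈ F ∧ x ∈ convexHull ℝ (v' '' (e : Set (Fin n)))}.ncard ≤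
        C1 * (d + 1) ^ (d + 1) * (κ ^ (d / 2) * s ^ (d + 1) + κ ^ (d - 1) * s ^ d) := by
    intro x
    have hsub : {e : Finset (Fin n) | e ∈ F ∧ x ∈ convexHull ℝ (v' '' (e : Set (Fin n)))} ⊆
        (fun t : Fin (d + 1) → Fin ((d + 1) * κ) × Fin s => (eg t).map j) ''
          {t | Bal 0 t ∧ Hit 0 (Zf ζ) (bary x) t} := by
      rintro e ⟨he', hx⟩
      obtain ⟨t, ht, rfl⟩ := hmem e he'
      rw [himg] at hx
      exact ⟨t, ⟨ht, (hit_of_mem hd (Zf ζ) (fun b => Cfg_pos hζ b) t x hx).1⟩, rfl⟩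
    by_cases hne : {e : Finset (Fin n) |
        e ∈ F ∧ x ∈ convexHull ℝ (v' '' (e : Set (Fin n)))} = ∅
    · rw [hne, Set.ncard_empty]
      exact Nat.zero_le _
    · obtain ⟨e, he', hx⟩ := Set.nonempty_iff_ne_empty.2 hne
      obtain ⟨t, ht, rfl⟩ := hmem e he'
      rw [himg] at hx
      obtain ⟨-, hx0, hx1⟩ := hit_of_mem hd (Zf ζ) (fun b => Cfg_pos hζ b) t x hx
      refine le_trans (Set.ncard_le_ncard hsub (Set.toFinite _)) ?_
      refine le_trans (Set.ncard_image_le (Set.toFinite _)) ?_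
      have hK : 1 ≤ (d + 1) * κ := Nat.mul_pos (Nat.succ_pos d) hκ
      refine le_trans (hC1 ((d + 1) * κ) s ζ (bary x) hK hζ hx0 hx1) ?_
      exact Cfg_arith C1 (d + 1) κ s d (Nat.succ_pos d) (Nat.le_succ d)
  obtain ⟨G, h1, h2, h3⟩ := Pool.Agent.H74.GB.exists_generic hd v' F hF hT
  exact ⟨G, h1, h2.trans hFm, h3⟩

end Pool.Agent.H74.GC
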