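import Mathlib
import Pool.Agent.H9.SC.TwoS
import Pool.Agent.H74.GB.Ext
import Pool.Agent.H74.GC.Cfg

/-!
Module Bas (odd dimension, numerics; model: Pool/Agent/H74/GB/Bas.lean, the case `d = 3`, proved).

Paper proof (complete). Let `q = d + 1 = 2 a`, `C1` the constant of `two_sided d (d+1) 0`, `C2` the one of
`exists_config d`, `A = (2 q^2)^q`. Let `1 ≤ m ≤ n.choose q`, so `n ≥ q ≥ 2`.
(i) `m ≤ n^d`: the third clause of `two_sided` (`d < 0 + (d+1)`) gives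
`fval ≤ C1 * max 1 (m/n) * (max 1 (m/n^d))^1 = C1 * max 1 (m/n)`.
(ii) `n^d < m` and `A m ≤ n^q`: let `κ = n^q / (A m) ≥ 1` (natural division), `κ A m ≤ n^q < 2 κ A m`. As
`m > n^d`, `κ A ≤ n`, in particular `q^2 κ ≤ n`. Let `s = n / (q^2 κ) ≥ 1`,
`q^2 κ s ≤ n < 2 q^2 κ s`. Then `κ^d s^q ≥ κ^d (n / (2 q^2 κ))^q = n^q / (A κ) ≥ m`. By `exists_config`
(`fval_le`) and `d / 2 = a - 1`,
`fval ≤ C2 (κ^(a-1) s^q + κ^(d-1) s^d) ≤ C2 (κ^(a-1) (n/κ)^q + κ^(d-1) (n/κ)^d) = C2 (n^q / κ^(a+1) + n^d / κ)`,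
and `1/κ < 2 A m / n^q` gives `≤ C2 ((2A)^(a+1) m (m/n^q)^a + 2 A m / n)`.
(iii) `n^q < A m`: `fval ≤ m ≤ m (A m / n^q)^a = A^a m (m/n^q)^a` (`fval_le_card`).
-/

namespace Pool.Agent.H74.GC

open Pool.Agent.H68

private lemma Bas_real {N M K S A : ℝ} {a d : ℕ} (hda : d + 1 = 2 * a) (hN : 0 < N)
    (hM : 0 < M) (hK : 1 ≤ K) (hS : 0 ≤ S) (hA : 0 < A) (h1 : K * S ≤ N)
    (h2 : N ^ (d + 1) ≤ 2 * (K * (A * M))) :
    K ^ (d / 2) * S ^ (d + 1) + K ^ (d - 1) * S ^ d ≤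
      (2 * A) ^ (a + 1) * (M * (M / N ^ (d + 1)) ^ a) + 2 * A * (M / N) := by
  have hK0 : 0 < K := by linarith
  have hNq : 0 < N ^ (d + 1) := by positivity
  have hw : K⁻¹ ≤ 2 * A * M / N ^ (d + 1) := by
    rw [inv_eq_one_div, div_le_div_iff₀ hK0 hNq]
    linarith
  have ht0 : 0 ≤ K * S := by positivity
  have hi0 : 0 ≤ K⁻¹ := by positivity
  have e1 : K ^ (d / 2) * S ^ (d + 1) = (K * S) ^ (d + 1) * (K⁻¹) ^ (a + 1) := by
    have h3 : d + 1 = d / 2 + (a + 1) := by omega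
    have h4 : K ^ (d + 1) = K ^ (d / 2) * K ^ (a + 1) := by rw [← pow_add, ← h3]
    rw [mul_pow, h4, inv_pow]
    field_simp
  have e2 : K ^ (d - 1) * S ^ d = (K * S) ^ d * K⁻¹ := by
    have h4 : K ^ d = K ^ (d - 1) * K := by
      rw [← pow_succ]
      congr 1
      omega
    rw [mul_pow, h4]
    field_simp
  have b1 : (K * S) ^ (d + 1) * (K⁻¹) ^ (a + 1) ≤
      N ^ (d + 1) * (2 * A * M / N ^ (d + 1)) ^ (a + 1) := by
    apply mul_le_mul (pow_le_pow_left₀ ht0 h1 _) (pow_le_pow_left₀ hi0 hw _) (by positivity)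
      (by positivity)
  have b2 : (K * S) ^ d * K⁻¹ ≤ N ^ d * (2 * A * M / N ^ (d + 1)) := by
    apply mul_le_mul (pow_le_pow_left₀ ht0 h1 _) hw hi0 (by positivity)
  have c1 : N ^ (d + 1) * (2 * A * M / N ^ (d + 1)) ^ (a + 1) =
      (2 * A) ^ (a + 1) * (M * (M / N ^ (d + 1)) ^ a) := by
    have h5 : 2 * A * M / N ^ (d + 1) = 2 * A * (M / N ^ (d + 1)) := by ring
    rw [h5, mul_pow, pow_succ (M / N ^ (d + 1)) a]
    field_simp
  have c2 : N ^ d * (2 * A * M / N ^ (d + 1)) = 2 * A * (M / N) := by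
    rw [pow_succ]
    field_simp
  rw [e1, e2]
  rw [c1] at b1
  rw [c2] at b2
  linarith

private lemma Bas_main (a d : ℕ) (ha : 1 ≤ a) (hda : d + 1 = 2 * a) :
    ∃ C : ℝ, 0 < C ∧ ∀ n m : ℕ, 1 ≤ m → m ≤ n.choose (d + 1) →
    (fval d (d + 1) 0 m n : ℝ) ≤
      C * (max 1 ((m : ℝ) / n) + (m : ℝ) * ((m : ℝ) / (n : ℝ) ^ (d + 1)) ^ a) := by
  have hd : 1 ≤ d := by omega
  obtain ⟨C1, hC1, h1⟩ := Pool.Agent.H9.SC.two_sided d (d + 1) 0 (by omega) (by omega) (by omega)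
  obtain ⟨C2, h2⟩ := exists_config d hd (by omega)
  obtain ⟨A, hA⟩ : ∃ A : ℕ, A = (2 * (d + 1) ^ 2) ^ (d + 1) := ⟨_, rfl⟩
  have hq2 : 1 ≤ (d + 1) ^ 2 := Nat.one_le_pow _ _ (by omega)
  have hAq : (d + 1) ^ 2 ≤ A := by
    rw [hA]
    calc (d + 1) ^ 2 ≤ 2 * (d + 1) ^ 2 := by omega
      _ = (2 * (d + 1) ^ 2) ^ 1 := (pow_one _).symm
      _ ≤ (2 * (d + 1) ^ 2) ^ (d + 1) := Nat.pow_le_pow_right (by omega) (by omega)
  have hA1 : 1 ≤ A := hq2.trans hAq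
  have hAr : (0 : ℝ) < A := by exact_mod_cast hA1
  have hAr1 : (1 : ℝ) ≤ A := by exact_mod_cast hA1
  refine ⟨C1 + C2 * ((2 * A) ^ (a + 1) + 2 * A) + A ^ a, by positivity, ?_⟩
  intro n m hm1 hm
  have hn : d + 1 ≤ n := by
    by_contra h0
    rw [Nat.choose_eq_zero_of_lt (by omega)] at hm
    omega
  have hN : (0 : ℝ) < n := by
    have : 0 < n := by omega
    exact_mod_cast this
  have hM : (0 : ℝ) < m := by exact_mod_cast hm1
  have a1 := le_max_left (1 : ℝ) ((m : ℝ) / n)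
  have a2 := le_max_right (1 : ℝ) ((m : ℝ) / n)
  have a3 : 0 ≤ (m : ℝ) * ((m : ℝ) / (n : ℝ) ^ (d + 1)) ^ a := by positivity
  have a4 : (0 : ℝ) ≤ C2 * ((2 * A) ^ (a + 1) + 2 * A) := by positivity
  have a5 : (0 : ℝ) ≤ (A : ℝ) ^ a := by positivity
  by_cases hc1 : m ≤ n ^ d
  · obtain ⟨-, -, h3⟩ := h1 n m hm1 hm
    have h4 := h3 (by omega)
    have h5 : max 1 ((m : ℝ) / (n : ℝ) ^ (d - 0)) = 1 := by
      apply max_eq_left
      rw [Nat.sub_zero, div_le_one (by positivity)]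
      have : ((m : ℕ) : ℝ) ≤ ((n ^ d : ℕ) : ℝ) := by exact_mod_cast hc1
      simpa using this
    rw [h5, Real.one_rpow, mul_one] at h4
    have e1 : C1 * max 1 ((m : ℝ) / n) ≤
        (C1 + C2 * ((2 * A) ^ (a + 1) + 2 * A) + A ^ a) *
          (max 1 ((m : ℝ) / n) + (m : ℝ) * ((m : ℝ) / (n : ℝ) ^ (d + 1)) ^ a) := by
      apply mul_le_mul <;> first | positivity | linarith
    linarith
  · by_cases hc2 : A * m ≤ n ^ (d + 1)
    · have hc1' : n ^ d < m := by omega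
      obtain ⟨κ, hκ⟩ : ∃ κ, κ = n ^ (d + 1) / (A * m) := ⟨_, rfl⟩
      have hAm : 0 < A * m := Nat.mul_pos (by omega) (by omega)
      have hκ1 : 1 ≤ κ := by
        rw [hκ]
        exact Nat.div_pos hc2 hAm
      have hκ2 : κ * (A * m) ≤ n ^ (d + 1) := by
        rw [hκ]
        exact Nat.div_mul_le_self _ _
      have hκ3 : n ^ (d + 1) < (κ + 1) * (A * m) := by
        rw [hκ, mul_comm]
        exact Nat.lt_mul_div_succ (n ^ (d + 1)) hAm
      have hκ4 : n ^ (d + 1) ≤ 2 * (κ * (A * m)) := by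
        have h3 : (κ + 1) * (A * m) ≤ (2 * κ) * (A * m) :=
          Nat.mul_le_mul_right _ (by omega)
        have h' : (2 * κ) * (A * m) = 2 * (κ * (A * m)) := by ring
        omega
      have hκA : 1 ≤ κ * A := Nat.mul_pos hκ1 hA1
      have hκ5 : κ * A ≤ n := by
        by_contra h
        have h' : n < κ * A := by omega
        have h3 : n * n ^ d ≤ κ * A * n ^ d := Nat.mul_le_mul_right _ h'.le
        have h4 : κ * A * n ^ d < κ * A * m :=
          Nat.mul_lt_mul_of_pos_left hc1' (by omega)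
        have h5 : n * n ^ d = n ^ (d + 1) := by ring
        have h6 : κ * A * m = κ * (A * m) := by ring
        omega
      have hκ6 : (d + 1) ^ 2 * κ ≤ n := by
        have h3 : (d + 1) ^ 2 * κ ≤ A * κ := Nat.mul_le_mul_right _ hAq
        have h4 : A * κ = κ * A := Nat.mul_comm _ _
        omega
      have hqk : 0 < (d + 1) ^ 2 * κ := Nat.mul_pos (by omega) (by omega)
      obtain ⟨s, hs⟩ : ∃ s, s = n / ((d + 1) ^ 2 * κ) := ⟨_, rfl⟩
      have hs1 : 1 ≤ s := by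
        rw [hs]
        exact Nat.div_pos hκ6 hqk
      have hs2 : (d + 1) ^ 2 * κ * s ≤ n := by
        rw [hs]
        exact Nat.mul_div_le _ _
      have hs3 : n < (d + 1) ^ 2 * κ * (s + 1) := by
        rw [hs]
        exact Nat.lt_mul_div_succ n hqk
      have hs4 : n ≤ 2 * (d + 1) ^ 2 * κ * s := by
        have h3 : (d + 1) ^ 2 * κ * (s + 1) ≤ (d + 1) ^ 2 * κ * (2 * s) :=
          Nat.mul_le_mul_left _ (by omega)
        have h' : (d + 1) ^ 2 * κ * (2 * s) = 2 * (d + 1) ^ 2 * κ * s := by ring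
        omega
      have hms : m ≤ κ ^ d * s ^ (d + 1) := by
        have h3 : n ^ (d + 1) ≤ (2 * (d + 1) ^ 2 * κ * s) ^ (d + 1) := Nat.pow_le_pow_left hs4 _
        have h4 : κ * (A * m) ≤ (2 * (d + 1) ^ 2 * κ * s) ^ (d + 1) := hκ2.trans h3
        have h5 : (2 * (d + 1) ^ 2 * κ * s) ^ (d + 1) = (κ * A) * (κ ^ d * s ^ (d + 1)) := by
          rw [mul_pow, mul_pow, hA, pow_succ κ d]
          ring
        have h6 : κ * (A * m) = (κ * A) * m := by ring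
        rw [h5, h6] at h4
        exact Nat.le_of_mul_le_mul_left h4 (by omega)
      obtain ⟨G, hG1, hG2, hG3⟩ := h2 n m κ s hκ1 hs2 hms
      have hf : fval d (d + 1) 0 m n ≤
          C2 * (κ ^ (d / 2) * s ^ (d + 1) + κ ^ (d - 1) * s ^ d) := fval_le G hG1 hG2 hG3
      have hf' : (fval d (d + 1) 0 m n : ℝ) ≤
          C2 * ((κ : ℝ) ^ (d / 2) * (s : ℝ) ^ (d + 1) + (κ : ℝ) ^ (d - 1) * (s : ℝ) ^ d) := by
        exact_mod_cast hf
      have hKS : (κ : ℝ) * s ≤ n := by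
        have h3 : κ * s ≤ n := by
          have h4 : 1 * (κ * s) ≤ (d + 1) ^ 2 * (κ * s) := Nat.mul_le_mul_right _ hq2
          have h5 : (d + 1) ^ 2 * (κ * s) = (d + 1) ^ 2 * κ * s := by ring
          omega
        exact_mod_cast h3
      have hr := Bas_real (N := n) (M := m) (K := κ) (S := s) (A := A) hda hN hM
        (by exact_mod_cast hκ1) (by positivity) hAr hKS (by exact_mod_cast hκ4)
      have hr2 := mul_le_mul_of_nonneg_left hr (Nat.cast_nonneg C2 : (0 : ℝ) ≤ C2)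
      have hfin : (C2 : ℝ) * ((2 * A) ^ (a + 1) * ((m : ℝ) * ((m : ℝ) / (n : ℝ) ^ (d + 1)) ^ a) +
          2 * A * ((m : ℝ) / n)) ≤
          (C1 + C2 * ((2 * A) ^ (a + 1) + 2 * A) + A ^ a) *
            (max 1 ((m : ℝ) / n) + (m : ℝ) * ((m : ℝ) / (n : ℝ) ^ (d + 1)) ^ a) := by
        set X : ℝ := (m : ℝ) * ((m : ℝ) / (n : ℝ) ^ (d + 1)) ^ a with hX
        set Y : ℝ := (m : ℝ) / n with hY
        have hY0 : 0 ≤ Y := by positivity
        have hp : (0 : ℝ) ≤ (2 * A) ^ (a + 1) := by positivity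
        have hC2 : (0 : ℝ) ≤ C2 := Nat.cast_nonneg _
        have g1 : (2 * (A : ℝ)) ^ (a + 1) * X + 2 * A * Y ≤
            ((2 * A) ^ (a + 1) + 2 * A) * (max 1 Y + X) := by
          have g2 : 0 ≤ (2 * (A : ℝ)) ^ (a + 1) * max 1 Y := by positivity
          have g3 : 0 ≤ 2 * (A : ℝ) * X := by positivity
          have g4 : 2 * (A : ℝ) * Y ≤ 2 * A * max 1 Y :=
            mul_le_mul_of_nonneg_left a2 (by positivity)
          nlinarith
        have g5 : (C2 : ℝ) * ((2 * A) ^ (a + 1) * X + 2 * A * Y) ≤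
            C2 * (((2 * A) ^ (a + 1) + 2 * A) * (max 1 Y + X)) :=
          mul_le_mul_of_nonneg_left g1 hC2
        have g6 : (C2 : ℝ) * ((2 * A) ^ (a + 1) + 2 * A) * (max 1 Y + X) ≤
            (C1 + C2 * ((2 * A) ^ (a + 1) + 2 * A) + A ^ a) * (max 1 Y + X) :=
          mul_le_mul_of_nonneg_right (by linarith) (by positivity)
        linarith
      linarith
    · have hc2' : n ^ (d + 1) < A * m := by omega
      have hf : fval d (d + 1) 0 m n ≤ m :=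
        Pool.Agent.H74.GB.fval_le_card (by omega) (by omega) hm
      have hf' : (fval d (d + 1) 0 m n : ℝ) ≤ m := by exact_mod_cast hf
      have hx : (1 : ℝ) ≤ A * m / (n : ℝ) ^ (d + 1) := by
        rw [one_le_div (by positivity)]
        have : ((n ^ (d + 1) : ℕ) : ℝ) ≤ ((A * m : ℕ) : ℝ) := by exact_mod_cast hc2'.le
        push_cast at this
        exact this
      have hx2 : (1 : ℝ) ≤ (A * m / (n : ℝ) ^ (d + 1)) ^ a := one_le_pow₀ hx
      have hx3 : (m : ℝ) ≤ m * (A * m / (n : ℝ) ^ (d + 1)) ^ a := by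
        nlinarith
      have hx4 : m * (A * m / (n : ℝ) ^ (d + 1)) ^ a =
          (A : ℝ) ^ a * (m * ((m : ℝ) / (n : ℝ) ^ (d + 1)) ^ a) := by
        rw [mul_div_assoc, mul_pow]
        ring
      have hfin : (A : ℝ) ^ a * (m * ((m : ℝ) / (n : ℝ) ^ (d + 1)) ^ a) ≤
          (C1 + C2 * ((2 * A) ^ (a + 1) + 2 * A) + A ^ a) *
            (max 1 ((m : ℝ) / n) + (m : ℝ) * ((m : ℝ) / (n : ℝ) ^ (d + 1)) ^ a) := by
        apply mul_le_mul
        · linarith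
        · linarith
        · positivity
        · positivity
      linarith

theorem base_odd (a : ℕ) (ha : 1 ≤ a) : ∃ C : ℝ, 0 < C ∧ ∀ n m : ℕ, 1 ≤ m → m ≤ n.choose (2 * a) →
    (fval (2 * a - 1) (2 * a) 0 m n : ℝ) ≤
      C * (max 1 ((m : ℝ) / n) + (m : ℝ) * ((m : ℝ) / (n : ℝ) ^ (2 * a)) ^ a) := by
  have h := Bas_main a (2 * a - 1) ha (by omega)
  have e : 2 * a - 1 + 1 = 2 * a := by omega
  rw [e] at h
  exact h

end Pool.Agent.H74.GC
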