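import Mathlib
import Pool.Agent.H74.GC.Bas
import Pool.Agent.H74.GC.Stp

/-!
The upper bound in the second selection lemma, all dimensions.
-/

namespace Pool.Agent.H74.GC

open Pool.Agent.H68

theorem selUpper (d : ℕ) (hd : 1 ≤ d) :
    ∃ C : ℝ, 0 < C ∧ ∀ n m : ℕ, 1 ≤ m → m ≤ n.choose (d + 1) →
      (fval d (d + 1) 0 m n : ℝ) ≤
        C * (max 1 ((m : ℝ) / n) +
          (m : ℝ) * ((m : ℝ) / (n : ℝ) ^ (d + 1)) ^ ((d + 1) / 2)) := by
  rcases Nat.even_or_odd' d with ⟨a, h | h⟩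
  · -- `d = 2 a`
    have ha : 1 ≤ a := by omega
    obtain ⟨b, hb⟩ : ∃ b, 2 * a = b + 2 := ⟨2 * a - 2, by omega⟩
    have h1 := base_odd a ha
    have e1 : 2 * a - 1 = b + 1 := by omega
    rw [e1, hb] at h1
    have h2 := step_dim (b + 1) a (by omega) h1
    have e2 : d = b + 1 + 1 := by omega
    have e3 : (d + 1) / 2 = a := by omega
    rw [e3, e2]
    exact h2
  · -- `d = 2 a + 1`
    have h1 := base_odd (a + 1) (by omega)
    have e1 : 2 * (a + 1) - 1 = d := by omega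
    have e2 : 2 * (a + 1) = d + 1 := by omega
    have e3 : (d + 1) / 2 = a + 1 := by omega
    rw [e1, e2] at h1
    rw [e3]
    exact h1

end Pool.Agent.H74.GC
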